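import Mathlib

namespace SquareHole

/-- `cnt Q n`: number of pairs `(i,P)` with `1 ≤ P`, `i+2P ≤ n` and `Q i P`,
organised by the end `e = i+2P`. -/
noncomputable def ends (Q : ℕ → ℕ → Prop) (e : ℕ) : ℕ := by
  classical exact ((Finset.Icc 1 e).filter (fun P => 2 * P ≤ e ∧ Q (e - 2 * P) P)).card

noncomputable def cnt (Q : ℕ → ℕ → Prop) (n : ℕ) : ℕ := ∑ e ∈ Finset.range (n + 1), ends Q e

theorem ends_zero (Q : ℕ → ℕ → Prop) : ends Q 0 = 0 := by
  classical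
  simp [ends]

theorem cnt_zero (Q : ℕ → ℕ → Prop) : cnt Q 0 = 0 := by
  simp [cnt, ends_zero]

theorem cnt_succ (Q : ℕ → ℕ → Prop) (n : ℕ) : cnt Q (n + 1) = cnt Q n + ends Q (n + 1) := by
  unfold cnt
  rw [Finset.sum_range_succ]

theorem cnt_mono (Q : ℕ → ℕ → Prop) {m n : ℕ} (h : m ≤ n) : cnt Q m ≤ cnt Q n := by
  induction n, h using Nat.le_induction with
  | base => exact le_rfl
  | succ n _ ih => rw [cnt_succ]; omega

/-- the double sum form -/
theorem sum_eq_cnt (Q : ℕ → ℕ → Prop) [∀ i P, Decidable (Q i P)] (n : ℕ) :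
    (∑ i ∈ Finset.range n, ∑ j ∈ Finset.Icc 1 n, if i + 2 * j ≤ n ∧ Q i j then 1 else 0)
      = cnt Q n := by
  classical
  have h1 : (∑ i ∈ Finset.range n, ∑ j ∈ Finset.Icc 1 n, if i + 2 * j ≤ n ∧ Q i j then 1 else 0)
      = (((Finset.range n) ×ˢ (Finset.Icc 1 n)).filter
          (fun p : ℕ × ℕ => p.1 + 2 * p.2 ≤ n ∧ Q p.1 p.2)).card := by
    rw [Finset.card_filter, Finset.sum_product]
  have h2 : cnt Q n = (((Finset.range (n+1)) ×ˢ (Finset.Icc 1 n)).filter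
          (fun p : ℕ × ℕ => 2 * p.2 ≤ p.1 ∧ Q (p.1 - 2 * p.2) p.2)).card := by
    rw [Finset.card_filter, Finset.sum_product, cnt]
    apply Finset.sum_congr rfl
    intro e he
    rw [Finset.mem_range] at he
    rw [← Finset.card_filter, ends]
    congr 1
    ext P
    simp only [Finset.mem_filter, Finset.mem_Icc]
    constructor
    · rintro ⟨⟨h1, h2⟩, h3, h4⟩; exact ⟨⟨h1, by omega⟩, h3, h4⟩
    · rintro ⟨⟨h1, h2⟩, h3, h4⟩; exact ⟨⟨h1, by omega⟩, h3, h4⟩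
  rw [h1, h2]
  apply Finset.card_nbij' (fun p => (p.1 + 2 * p.2, p.2)) (fun p => (p.1 - 2 * p.2, p.2))
  · rintro ⟨i, j⟩ h
    simp only [Finset.coe_filter, Finset.mem_product, Finset.mem_range, Finset.mem_Icc,
      Set.mem_ofPred_eq] at h ⊢
    refine ⟨⟨by omega, by omega, by omega⟩, by omega, ?_⟩
    rw [Nat.add_sub_cancel]; exact h.2.2
  · rintro ⟨i, j⟩ h
    simp only [Finset.coe_filter, Finset.mem_product, Finset.mem_range, Finset.mem_Icc,
      Set.mem_ofPred_eq] at h ⊢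
    refine ⟨⟨by omega, by omega, by omega⟩, by omega, h.2.2⟩
  · rintro ⟨i, j⟩ h
    simp
  · rintro ⟨i, j⟩ h
    simp only [Finset.coe_filter, Finset.mem_product, Finset.mem_range, Finset.mem_Icc,
      Set.mem_ofPred_eq] at h
    simp only [Prod.mk.injEq, and_true]
    omega

/-- square of period `P` at position `i` -/
def Sq (f : ℕ → Bool) (i P : ℕ) : Prop := ∀ t, t < P → f (i + t) = f (i + P + t)

/-- square of period `P` at position `i` when position `p` is a hole -/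
def PSq (f : ℕ → Bool) (p : ℕ) (i P : ℕ) : Prop :=
  ∀ t, t < P → i + t ≠ p → i + P + t ≠ p → f (i + t) = f (i + P + t)

theorem ends_mono {Q Q' : ℕ → ℕ → Prop} {e e' : ℕ}
    (h : ∀ P, 1 ≤ P → 2 * P ≤ e → Q (e - 2 * P) P → 2 * P ≤ e' ∧ Q' (e' - 2 * P) P) :
    ends Q e ≤ ends Q' e' := by
  classical
  unfold ends
  apply Finset.card_le_card
  intro P
  simp only [Finset.mem_filter, Finset.mem_Icc]
  rintro ⟨⟨h1, h2⟩, h3, h4⟩
  have := h P h1 h3 h4
  exact ⟨⟨h1, by omega⟩, this.1, this.2⟩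

theorem cnt_le_cnt {Q Q' : ℕ → ℕ → Prop} (n : ℕ)
    (h : ∀ i P, 1 ≤ P → i + 2 * P ≤ n → Q i P → Q' i P) : cnt Q n ≤ cnt Q' n := by
  classical
  unfold cnt
  apply Finset.sum_le_sum
  intro e he
  rw [Finset.mem_range] at he
  apply ends_mono
  intro P h1 h2 h3
  exact ⟨h2, h _ _ h1 (by omega) h3⟩

/-- strict comparison -/
theorem cnt_lt_cnt {Q Q' : ℕ → ℕ → Prop} (n : ℕ)
    (h : ∀ i P, 1 ≤ P → i + 2 * P ≤ n → Q i P → Q' i P) (i₀ P₀ : ℕ) (hP : 1 ≤ P₀)
    (hn : i₀ + 2 * P₀ ≤ n) (h1 : ¬ Q i₀ P₀) (h2 : Q' i₀ P₀) : cnt Q n < cnt Q' n := by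
  classical
  unfold cnt
  apply Finset.sum_lt_sum
  · intro e he
    rw [Finset.mem_range] at he
    apply ends_mono
    intro P h1 h2 h3
    exact ⟨h2, h _ _ h1 (by omega) h3⟩
  · refine ⟨i₀ + 2 * P₀, Finset.mem_range.2 (by omega), ?_⟩
    unfold ends
    apply Finset.card_lt_card
    rw [Finset.ssubset_iff_of_subset]
    · refine ⟨P₀, ?_, ?_⟩
      · simp only [Finset.mem_filter, Finset.mem_Icc]
        refine ⟨⟨hP, by omega⟩, by omega, ?_⟩
        rw [Nat.add_sub_cancel]; exact h2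
      · simp only [Finset.mem_filter, Finset.mem_Icc, not_and]
        intro _ _
        rw [Nat.add_sub_cancel]; exact h1
    · intro P
      simp only [Finset.mem_filter, Finset.mem_Icc]
      rintro ⟨⟨h1, h2⟩, h3, h4⟩
      exact ⟨⟨h1, h2⟩, h3, h _ _ h1 (by omega) h4⟩

end SquareHole
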