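import Pool.Agent.Helper30.Sq.Word

namespace SquareHole

theorem blk_70 (b : Bool) : bitB (blk b) 70 = b := by
  cases b <;> decide +kernel

theorem blk_indep_check : allB 187 (fun r => cond (Nat.beq r 70) true
    (bitB B0 r == bitB B1 r)) = true := by decide +kernel

theorem blk_indep (r : ℕ) (hr : r < 187) (h70 : r ≠ 70) (b b' : Bool) :
    bitB (blk b) r = bitB (blk b') r := by
  have h := allB_spec blk_indep_check r hr
  have h1 : Nat.beq r 70 = false := by
    cases hb : Nat.beq r 70 with
    | false => rfl
    | true => exact absurd (Nat.eq_of_beq_eq_true hb) h70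
  have h2 : bitB B0 r = bitB B1 r := by
    simp only [h1, cond_false, beq_iff_eq] at h
    exact h
  cases b <;> cases b' <;> simp [blk, h2]

theorem W_70 (j : ℕ) : W (187 * j + 70) = xor (v j) (decide (j % 2 = 1)) := by
  unfold W
  have h1 : (187 * j + 70) / 187 = j := by omega
  have h2 : (187 * j + 70) % 187 = 70 := by omega
  rw [h1, h2, blk_70]

theorem W_period (x k : ℕ) (h : x % 187 ≠ 70) : W (x + 374 * k) = W x := by
  unfold W
  have h1 : (x + 374 * k) / 187 = x / 187 + 2 * k := by omega
  have h2 : (x + 374 * k) % 187 = x % 187 := by omega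
  have h3 : (x / 187 + 2 * k) % 2 = x / 187 % 2 := by omega
  rw [h1, h2, h3, blk_indep (x % 187) (Nat.mod_lt _ (by norm_num)) h _ (v (x / 187))]

/-- No squares of large period (with a hole at `0`) -/
theorem no_big (f : ℕ → Bool) (a K : ℕ) (hf : ∀ x, x < a → f x = W x)
    (hK : K = 0 ∨ (f a ≠ W a ∧ a % 187 ≠ 70)) (i P : ℕ) (hP : 198 + K ≤ P)
    (hn : i + 2 * P ≤ a + K) : ¬ PSq f 0 i P := by
  intro hsq
  have key : ∀ x, i ≤ x → x < i + P → x ≠ 0 → f x = f (x + P) := by
    intro x h1 h2 h3
    have := hsq (x - i) (by omega) (by omega) (by omega)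
    have e1 : i + (x - i) = x := by omega
    have e2 : i + P + (x - i) = x + P := by omega
    rwa [e1, e2] at this
  -- the marker
  have h374 : ∃ k, P = 374 * k := by
    obtain ⟨q, hq, hq2⟩ := sync (i / 187 + 1) (187 * (i / 187 + 1) + P) (by
      intro s hs
      have h1 := key (187 * (i / 187 + 1) + s) (by omega) (by omega) (by omega)
      rw [hf _ (by omega), hf _ (by omega)] at h1
      rw [h1]
      congr 1
      omega)
    exact ⟨P / 374, by omega⟩
  obtain ⟨k, hk⟩ := h374
  rcases Nat.lt_or_ge a (i + 2 * P) with hcase | hcase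
  · -- the square reaches the tail
    rcases hK with hK | ⟨hne, h70⟩
    · omega
    · have h1 := key (a - P) (by omega) (by omega) (by omega)
      have e : a - P + P = a := by omega
      rw [e, hf (a - P) (by omega)] at h1
      apply hne
      rw [← h1]
      have h2 := W_period (a - P) k (by omega)
      have e3 : a - P + 374 * k = a := by omega
      rw [e3] at h2
      exact h2.symm
  · -- square inside the structured part
    apply v_even_sqfree k (by omega) ((i + 116) / 187)
    intro t ht
    have h1 := key (187 * ((i + 116) / 187 + t) + 70) (by omega) (by omega) (by omega)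
    rw [hf _ (by omega), hf _ (by omega), W_70] at h1
    have e : 187 * ((i + 116) / 187 + t) + 70 + P = 187 * ((i + 116) / 187 + 2 * k + t) + 70 := by
      omega
    rw [e, W_70] at h1
    have h3 : decide (((i + 116) / 187 + 2 * k + t) % 2 = 1) =
        decide (((i + 116) / 187 + t) % 2 = 1) := by
      congr 2
      omega
    rw [h3] at h1
    revert h1
    generalize v ((i + 116) / 187 + t) = x
    generalize v ((i + 116) / 187 + 2 * k + t) = y
    generalize decide (((i + 116) / 187 + t) % 2 = 1) = z
    revert x y z; decide

end SquareHole
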