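import Pool.Agent.Helper30.Sq.Sound

namespace SquareHole

/-- the value of `γ_0` -/
def gm (n : ℕ) : ℕ :=
  fv n + (if n = 4 ∨ n = 6 ∨ n = 10 ∨ n = 39 ∨ n = 79 ∨ n = 128 then 1 else 0)

def smallStep (n : ℕ) : Bool :=
  cond (Nat.ble 5 n)
    (cond (Nat.ble (Nat.add 562 (tK n)) n) true
      (cond (Nat.beq (gm (Nat.succ n)) (gm n)) true
        (cond (Nat.ble 4 (tA n)) (cond (Nat.ble (tK n) n) (chk n (gm n) true true false true) false)
          false))) true

def classStep (n : ℕ) : Bool :=
  cond (Nat.ble (Nat.add 562 (tK n)) n)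
    (cond (Nat.ble (tA n) 748)
      (cond (Nat.beq (fv (Nat.succ n)) (fv n)) true
        (cond (Nat.ble (Nat.mul 2 (Nat.add 198 (tK n))) (Nat.add (tA n) 2))
          (all12 (chk n (fv n))) false)) true) true

set_option maxRecDepth 100000 in
theorem small_all : allB 700 smallStep = true := by decide +kernel

end SquareHole
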