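import Pool.Agent.Helper30.Sq.Checks

namespace SquareHole

set_option maxRecDepth 100000 in
theorem class_all2 : allB 81 (fun k => classStep (Nat.add 724 k)) = true := by decide +kernel

end SquareHole
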