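import Pool.Agent.Helper30.Sq.Basic

namespace SquareHole

/-- most significant letter first code of the first `m` letters -/
def code (f : ℕ → Bool) : ℕ → ℕ
  | 0 => 0
  | m + 1 => 2 * code f m + (f m).toNat

theorem code_div (f : ℕ → Bool) (m k : ℕ) : code f (m + k) / 2 ^ k = code f m := by
  induction k with
  | zero => simp
  | succ k ih =>
    rw [← add_assoc, code, pow_succ', ← Nat.div_div_eq_div_mul]
    have : (2 * code f (m + k) + (f (m + k)).toNat) / 2 = code f (m + k) := by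
      cases f (m + k) <;> simp only [Bool.toNat_false, Bool.toNat_true] <;> omega
    rw [this, ih]

theorem two_mul_add_mod (x P : ℕ) (b : Bool) :
    (2 * x + b.toNat) % 2 ^ (P + 1) = 2 * (x % 2 ^ P) + b.toNat := by
  have hb : b.toNat < 2 := by cases b <;> simp
  have h1 := Nat.div_add_mod x (2 ^ P)
  have h2 : x % 2 ^ P < 2 ^ P := Nat.mod_lt _ (by positivity)
  have h3 : 2 * x + b.toNat = (2 * (x % 2 ^ P) + b.toNat) + 2 ^ (P + 1) * (x / 2 ^ P) := by
    rw [pow_succ]
    nlinarith [h1]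
  rw [h3, Nat.add_mul_mod_self_left]
  apply Nat.mod_eq_of_lt
  rw [pow_succ]; omega

theorem code_mod_eq (f g : ℕ → Bool) (P e e' : ℕ) :
    code f (e + P) % 2 ^ P = code g (e' + P) % 2 ^ P ↔ ∀ t, t < P → f (e + t) = g (e' + t) := by
  induction P with
  | zero => simp [Nat.mod_one]
  | succ P ih =>
    rw [← add_assoc, ← add_assoc, code, code, two_mul_add_mod, two_mul_add_mod]
    constructor
    · intro h
      have hb : (f (e + P)).toNat < 2 := by cases f (e+P) <;> simp
      have hb' : (g (e' + P)).toNat < 2 := by cases g (e'+P) <;> simp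
      have h1 : code f (e + P) % 2 ^ P = code g (e' + P) % 2 ^ P := by omega
      have h2 : (f (e + P)).toNat = (g (e' + P)).toNat := by omega
      have h3 : f (e + P) = g (e' + P) := by
        revert h2
        cases f (e+P) <;> cases g (e'+P) <;> simp
      intro t ht
      rcases Nat.lt_succ_iff_lt_or_eq.1 ht with h | h
      · exact ih.1 h1 t h
      · rw [h]; exact h3
    · intro h
      have h1 := ih.2 (fun t ht => h t (by omega))
      rw [h1, h P (by omega)]

theorem sq_iff_code (f : ℕ → Bool) (i P : ℕ) :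
    Sq f i P ↔ code f (i + 2 * P) % 2 ^ P = (code f (i + 2 * P) / 2 ^ P) % 2 ^ P := by
  have h : i + 2 * P = (i + P) + P := by ring
  rw [h, code_div]
  unfold Sq
  rw [eq_comm, code_mod_eq]

theorem code_lt (f : ℕ → Bool) (m : ℕ) : code f m < 2 ^ m := by
  induction m with
  | zero => simp [code]
  | succ m ih =>
    rw [code, pow_succ]
    have hb : (f m).toNat < 2 := by cases f m <;> simp
    omega

theorem div_mod_of_mod (x y P : ℕ) (h : x % 2 ^ (2 * P) = y % 2 ^ (2 * P)) :
    x % 2 ^ P = y % 2 ^ P ∧ (x / 2 ^ P) % 2 ^ P = (y / 2 ^ P) % 2 ^ P := by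
  have e : 2 ^ (2 * P) = 2 ^ P * 2 ^ P := by rw [two_mul, pow_add]
  constructor
  · have h1 : x % 2 ^ (2 * P) % 2 ^ P = y % 2 ^ (2 * P) % 2 ^ P := by rw [h]
    rwa [e, Nat.mod_mul_right_mod, Nat.mod_mul_right_mod] at h1
  · rw [e] at h
    rw [← Nat.mod_mul_right_div_self, ← Nat.mod_mul_right_div_self, h]

theorem mod_of_mod_le (x y a b : ℕ) (hab : b ≤ a) (h : x % 2 ^ a = y % 2 ^ a) :
    x % 2 ^ b = y % 2 ^ b := by
  have e : 2 ^ a = 2 ^ b * 2 ^ (a - b) := by rw [← pow_add]; congr 1; omega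
  have h1 : x % 2 ^ a % 2 ^ b = y % 2 ^ a % 2 ^ b := by rw [h]
  rwa [e, Nat.mod_mul_right_mod, Nat.mod_mul_right_mod] at h1

/-- squares ending at `e` with two listed periods -/
theorem ends_ge_one (f : ℕ → Bool) (e P : ℕ) (hP : 1 ≤ P) (he : 2 * P ≤ e)
    (h : Sq f (e - 2 * P) P) : 1 ≤ ends (Sq f) e := by
  classical
  unfold ends
  rw [Nat.one_le_iff_ne_zero, Finset.card_ne_zero]
  refine ⟨P, ?_⟩
  simp only [Finset.mem_filter, Finset.mem_Icc]
  exact ⟨⟨hP, by omega⟩, he, h⟩

theorem ends_ge_two (f : ℕ → Bool) (e P P' : ℕ) (hne : P ≠ P') (hP : 1 ≤ P) (he : 2 * P ≤ e)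
    (h : Sq f (e - 2 * P) P) (hP' : 1 ≤ P') (he' : 2 * P' ≤ e)
    (h' : Sq f (e - 2 * P') P') : 2 ≤ ends (Sq f) e := by
  classical
  unfold ends
  have h2 : ({P, P'} : Finset ℕ).card = 2 := Finset.card_pair hne
  refine le_trans h2.ge ?_
  apply Finset.card_le_card
  intro x hx
  simp only [Finset.mem_insert, Finset.mem_singleton] at hx
  simp only [Finset.mem_filter, Finset.mem_Icc]
  rcases hx with rfl | rfl
  · exact ⟨⟨hP, by omega⟩, he, h⟩
  · exact ⟨⟨hP', by omega⟩, he', h'⟩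

end SquareHole
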