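import Pool.Agent.Helper30.Sq.Defs
import Pool.Agent.Helper30.Sq.Basic

namespace SquareHole

/-- For a word whose only hole is (possibly) at `p` -/
theorem sqAt_eq {n : ℕ} (w : PWord n) (f : ℕ → Bool) (p : ℕ)
    (hw : ∀ i : Fin n, i.1 ≠ p → w i = some (f i)) (hp : ∀ i : Fin n, i.1 = p → w i = none)
    (i j : ℕ) (hj : 1 ≤ j) [Decidable (PSq f p i j)] :
    sqAt w i j = if i + 2 * j ≤ n ∧ PSq f p i j then 1 else 0 := by
  classical
  unfold sqAt
  by_cases h : i + 2 * j ≤ n
  · rw [dif_pos h]
    by_cases hs : PSq f p i j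
    · rw [if_pos ⟨h, hs⟩]
      rw [Finset.card_eq_one]
      refine ⟨fun t => if i + t.1 = p then f (i + j + t.1) else f (i + t.1), ?_⟩
      ext z
      simp only [Finset.mem_filter, Finset.mem_univ, true_and, Finset.mem_singleton]
      constructor
      · intro hz
        funext t
        have h1 := (hz t).1
        have h2 := (hz t).2
        have ht := t.2
        by_cases hc : i + t.1 = p
        · rw [if_pos hc]
          rw [hw ⟨i + j + t, by omega⟩ (by simp only; omega)] at h2
          simp only [Fits, reduceCtorEq, Option.some.injEq, false_or] at h2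
          exact h2.symm
        · rw [if_neg hc]
          rw [hw ⟨i + t, by omega⟩ (by simpa using hc)] at h1
          simp only [Fits, reduceCtorEq, Option.some.injEq, false_or] at h1
          exact h1.symm
      · rintro rfl t
        have ht := t.2
        constructor
        · by_cases hc : i + t.1 = p
          · left; exact hp _ hc
          · right
            rw [hw ⟨i + t, by omega⟩ (by simpa using hc)]
            simp [hc]
        · by_cases hc : i + j + t.1 = p
          · left; exact hp _ hc
          · right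
            rw [hw ⟨i + j + t, by omega⟩ (by simpa using hc)]
            simp only [Option.some.injEq]
            by_cases hd : i + t.1 = p
            · rw [if_pos hd]
            · rw [if_neg hd]
              exact (hs t.1 ht hd hc).symm
    · rw [if_neg (fun hh => hs hh.2)]
      rw [Finset.card_eq_zero]
      ext z
      simp only [Finset.mem_filter, Finset.mem_univ, true_and, Finset.notMem_empty, iff_false]
      intro hz
      apply hs
      intro t ht h1 h2
      have e1 := (hz ⟨t, ht⟩).1
      have e2 := (hz ⟨t, ht⟩).2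
      rw [hw ⟨i + t, by omega⟩ (by simpa using h1)] at e1
      rw [hw ⟨i + j + t, by omega⟩ (by simpa using h2)] at e2
      simp only [Fits, reduceCtorEq, Option.some.injEq, false_or] at e1 e2
      rw [e1, e2]
  · rw [dif_neg h, if_neg (fun hh => h hh.1)]

theorem sqOcc_eq {n : ℕ} (w : PWord n) (f : ℕ → Bool) (p : ℕ)
    (hw : ∀ i : Fin n, i.1 ≠ p → w i = some (f i)) (hp : ∀ i : Fin n, i.1 = p → w i = none) :
    sqOcc w = cnt (PSq f p) n := by
  classical
  rw [← sum_eq_cnt]
  unfold sqOcc
  apply Finset.sum_congr rfl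
  intro i _
  apply Finset.sum_congr rfl
  intro j hj
  rw [Finset.mem_Icc] at hj
  exact sqAt_eq w f p hw hp i j hj.1

/-- when the hole position is outside the word -/
theorem cnt_PSq_out (f : ℕ → Bool) (n : ℕ) : cnt (PSq f n) n = cnt (Sq f) n := by
  apply le_antisymm
  · apply cnt_le_cnt
    intro i P hP hn h t ht
    exact h t ht (by omega) (by omega)
  · apply cnt_le_cnt
    intro i P hP hn h t ht _ _
    exact h t ht

theorem sqOcc_full {n : ℕ} (w : PWord n) (f : ℕ → Bool) (hw : ∀ i : Fin n, w i = some (f i)) :
    sqOcc w = cnt (Sq f) n := by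
  rw [← cnt_PSq_out]
  apply sqOcc_eq
  · intro i _; exact hw i
  · intro i hi; have := i.2; omega

theorem full_of_holes_zero {n : ℕ} (w : PWord n) (h : holes w = 0) :
    ∃ f : ℕ → Bool, ∀ i : Fin n, w i = some (f i) := by
  classical
  refine ⟨fun k => if hk : k < n then (w ⟨k, hk⟩).getD false else false, ?_⟩
  intro i
  have h1 : w i ≠ none := by
    intro hc
    unfold holes at h
    rw [Finset.card_eq_zero] at h
    have : i ∈ (Finset.univ.filter fun i => w i = none) := by simp [hc]
    rw [h] at this
    simp at this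
  obtain ⟨b, hb⟩ := Option.ne_none_iff_exists'.1 h1
  simp only [i.2, dif_pos]
  rw [hb]; simp

theorem hole_of_holes_one {n : ℕ} (w : PWord n) (h : holes w = 1) :
    ∃ (f : ℕ → Bool) (p : ℕ), p < n ∧ (∀ i : Fin n, i.1 ≠ p → w i = some (f i)) ∧
      (∀ i : Fin n, i.1 = p → w i = none) := by
  classical
  unfold holes at h
  rw [Finset.card_eq_one] at h
  obtain ⟨q, hq⟩ := h
  refine ⟨fun k => if hk : k < n then (w ⟨k, hk⟩).getD false else false, q.1, q.2, ?_, ?_⟩
  · intro i hi
    have h1 : w i ≠ none := by
      intro hc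
      have : i ∈ (Finset.univ.filter fun i => w i = none) := by simp [hc]
      rw [hq] at this
      simp only [Finset.mem_singleton] at this
      exact hi (by rw [this])
    obtain ⟨b, hb⟩ := Option.ne_none_iff_exists'.1 h1
    simp only [i.2, dif_pos]
    rw [hb]; simp
  · intro i hi
    have : i = q := Fin.ext hi
    have h2 : q ∈ (Finset.univ.filter fun i => w i = none) := by rw [hq]; simp
    rw [Finset.mem_filter] at h2
    rw [this]; exact h2.2

/-- `s ≤ γ_0(n)` from a bound for all full words -/
theorem le_gamma_zero (n s : ℕ) (h : ∀ f : ℕ → Bool, s ≤ cnt (Sq f) n) : s ≤ gamma 0 n := by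
  classical
  unfold gamma
  have hne : {s | ∃ w : PWord n, holes w = 0 ∧ sqOcc w = s}.Nonempty := by
    refine ⟨sqOcc (fun _ : Fin n => some false), fun _ => some false, ?_, rfl⟩
    simp [holes]
  obtain ⟨w, hw0, hws⟩ := Nat.sInf_mem hne
  obtain ⟨f, hf⟩ := full_of_holes_zero w hw0
  rw [← hws, sqOcc_full w f hf]
  exact h f

/-- the trivial lower bound -/
theorem gamma_one_ge (n : ℕ) (hn : 2 ≤ n) : gamma 0 n + 1 ≤ gamma 1 n := by
  classical
  have hne : {s | ∃ w : PWord n, holes w = 1 ∧ sqOcc w = s}.Nonempty := by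
    refine ⟨sqOcc (fun i : Fin n => if i.1 = 0 then none else some false),
      fun i => if i.1 = 0 then none else some false, ?_, rfl⟩
    unfold holes
    rw [Finset.card_eq_one]
    refine ⟨⟨0, by omega⟩, ?_⟩
    ext i
    simp [Fin.ext_iff]
  obtain ⟨w, hw1, hws⟩ := Nat.sInf_mem hne
  obtain ⟨f, p, hpn, hf, hp⟩ := hole_of_holes_one w hw1
  have e1 : gamma 1 n = cnt (PSq f p) n := by
    unfold gamma
    rw [← hws]
    exact sqOcc_eq w f p hf hp
  -- fill the hole
  obtain ⟨b, i₀, hi₀, h1, h2⟩ : ∃ (b : Bool) (i₀ : ℕ), i₀ + 2 * 1 ≤ n ∧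
      ¬ Sq (Function.update f p b) i₀ 1 ∧ PSq f p i₀ 1 := by
    by_cases hp1 : p + 1 < n
    · refine ⟨!(f (p+1)), p, by omega, ?_, ?_⟩
      · intro h
        have := h 0 (by omega)
        simp only [add_zero, Function.update_self] at this
        rw [Function.update_of_ne (by omega)] at this
        cases hfp : f (p+1) <;> simp [hfp] at this
      · intro t ht h3 _
        exfalso; apply h3; omega
    · refine ⟨!(f (p-1)), p-1, by omega, ?_, ?_⟩
      · intro h
        have := h 0 (by omega)
        have hpp : p - 1 + 1 = p := by omega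
        simp only [add_zero, hpp, Function.update_self] at this
        rw [Function.update_of_ne (by omega)] at this
        cases hfp : f (p-1) <;> simp [hfp] at this
      · intro t ht _ h4
        exfalso; apply h4; omega
  have e2 : gamma 0 n ≤ cnt (Sq (Function.update f p b)) n := by
    unfold gamma
    apply Nat.sInf_le
    refine ⟨fun i => some (Function.update f p b i.1), ?_, ?_⟩
    · simp [holes]
    · exact sqOcc_full _ (Function.update f p b) (fun i => rfl)
  have e3 : cnt (Sq (Function.update f p b)) n < cnt (PSq f p) n := by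
    apply cnt_lt_cnt n _ i₀ 1 (by omega) hi₀ h1 h2
    intro i P hP hn' h t ht h3 h4
    have := h t ht
    rw [Function.update_of_ne h3, Function.update_of_ne h4] at this
    exact this
  rw [e1]
  omega

/-- upper bound from a word with a hole at position `0` -/
theorem gamma_one_le (n s : ℕ) (hn : 1 ≤ n) (f : ℕ → Bool) (h : cnt (PSq f 0) n ≤ s) :
    gamma 1 n ≤ s := by
  classical
  refine le_trans ?_ h
  unfold gamma
  apply Nat.sInf_le
  refine ⟨fun i => if i.1 = 0 then none else some (f i.1), ?_, ?_⟩
  · unfold holes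
    rw [Finset.card_eq_one]
    refine ⟨⟨0, by omega⟩, ?_⟩
    ext i
    simp [Fin.ext_iff]
  · apply sqOcc_eq
    · intro i hi; simp [hi]
    · intro i hi; simp [hi]

/-- Final criterion -/
theorem gamma_eq_of (n s : ℕ) (hn : 2 ≤ n) (hlow : ∀ f : ℕ → Bool, s ≤ cnt (Sq f) n)
    (hup : ∃ f : ℕ → Bool, cnt (PSq f 0) n ≤ s + 1) : gamma 1 n = gamma 0 n + 1 := by
  obtain ⟨f, hf⟩ := hup
  have h1 := gamma_one_ge n hn
  have h2 := gamma_one_le n (s+1) (by omega) f hf
  have h3 := le_gamma_zero n s hlow
  omega

end SquareHole
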