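import Mathlib

namespace SquareHole

/-- A binary partial word of length `n`: `some b` is the letter `b`, `none` is a hole. -/
abbrev PWord (n : ℕ) := Fin n → Option Bool

/-- The position with content `x` may be filled by the letter `b`: it is a hole or already `b`. -/
def Fits (x : Option Bool) (b : Bool) : Prop := x = none ∨ x = some b

instance (x : Option Bool) (b : Bool) : Decidable (Fits x b) := by
  unfold Fits; infer_instance

/-- The number of holes of `w`. -/
def holes {n : ℕ} (w : PWord n) : ℕ := (Finset.univ.filter fun i => w i = none).card

/-- The number of full words `z` of length `j` such that the factor of `w` of length `2j`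
starting at position `i` is contained in `zz` (and `0` if `i + 2j > n`). -/
def sqAt {n : ℕ} (w : PWord n) (i j : ℕ) : ℕ :=
  if h : i + 2 * j ≤ n then
    (Finset.univ.filter fun z : Fin j → Bool =>
      ∀ t : Fin j, Fits (w ⟨i + t, by omega⟩) (z t) ∧ Fits (w ⟨i + j + t, by omega⟩) (z t)).card
  else 0

/-- The number `s(w)` of square occurrences of `w`. -/
def sqOcc {n : ℕ} (w : PWord n) : ℕ :=
  ∑ i ∈ Finset.range n, ∑ j ∈ Finset.Icc 1 n, sqAt w i j

/-- `γ_h(n)`: the least number of square occurrences of a binary partial word of length `n`
with exactly `h` holes. -/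
noncomputable def gamma (h n : ℕ) : ℕ :=
  sInf {s | ∃ w : PWord n, holes w = h ∧ sqOcc w = s}

end SquareHole
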