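import Mathlib

namespace SquareHole

/-- `v n` is `true` iff the number of digits `2` of `n` in base `3` is even.  This is the fixed
point of `1 ↦ 110`, `0 ↦ 001`, a binary word without squares of even period. -/
def v (n : ℕ) : Bool := decide (((Nat.digits 3 n).count 2) % 2 = 0)

theorem v_zero : v 0 = true := by simp [v]

theorem v_step (q r : ℕ) (hr : r < 3) :
    v (3 * q + r) = if r = 2 then !(v q) else v q := by
  rcases Nat.eq_zero_or_pos (3 * q + r) with h | h
  · have hq : q = 0 := by omega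
    have hr0 : r = 0 := by omega
    subst hq; subst hr0
    simp
  · unfold v
    rw [Nat.digits_def' (by norm_num) h]
    have h1 : (3 * q + r) % 3 = r := by omega
    have h2 : (3 * q + r) / 3 = q := by omega
    rw [h1, h2, List.count_cons]
    by_cases h3 : r = 2
    · subst h3
      simp only [beq_self_eq_true, if_true]
      by_cases h4 : (Nat.digits 3 q).count 2 % 2 = 0
      · have h5 : ¬ ((Nat.digits 3 q).count 2 + 1) % 2 = 0 := by omega
        simp [h4, h5]
      · have h5 : ((Nat.digits 3 q).count 2 + 1) % 2 = 0 := by omega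
        simp [h4, h5]
    · have : (r == 2) = false := by simpa using h3
      rw [this]
      simp [h3]

theorem v0 (q : ℕ) : v (3 * q) = v q := by simpa using v_step q 0 (by norm_num)
theorem v1 (q : ℕ) : v (3 * q + 1) = v q := by simpa using v_step q 1 (by norm_num)
theorem v2 (q : ℕ) : v (3 * q + 2) = !(v q) := by simpa using v_step q 2 (by norm_num)

/-- `v` has no square of even period `2k`. -/
theorem v_even_sqfree (k : ℕ) (hk : 1 ≤ k) : ∀ i, ¬ ∀ t, t < 2 * k → v (i + t) = v (i + 2 * k + t) := by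
  induction k using Nat.strong_induction_on with
  | _ k ih =>
    intro i h
    rcases Nat.lt_or_ge k 2 with hk2 | hk2
    · have hk1 : k = 1 := by omega
      subst hk1
      have h0 := h 0 (by norm_num)
      have h1 := h 1 (by norm_num)
      obtain ⟨q, r, hr, rfl⟩ : ∃ q r, r < 3 ∧ i = 3 * q + r := ⟨i / 3, i % 3, by omega, by omega⟩
      have hr3 : r = 0 ∨ r = 1 ∨ r = 2 := by omega
      rcases hr3 with rfl | rfl | rfl
      · have e1 : 3 * q + 0 + 0 = 3 * q := by ring
        have e2 : 3 * q + 0 + 2 * 1 + 0 = 3 * q + 2 := by ring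
        rw [e1, e2, v0, v2] at h0
        cases hv : v q <;> simp [hv] at h0
      · have e1 : 3 * q + 1 + 0 = 3 * q + 1 := by ring
        have e2 : 3 * q + 1 + 2 * 1 + 0 = 3 * (q + 1) := by ring
        have e3 : 3 * q + 1 + 1 = 3 * q + 2 := by ring
        have e4 : 3 * q + 1 + 2 * 1 + 1 = 3 * (q + 1) + 1 := by ring
        rw [e1, e2, v1, v0] at h0
        rw [e3, e4, v2, v1] at h1
        cases hv : v q <;> cases hw : v (q+1) <;> simp [hv, hw] at h0 h1
      · have e3 : 3 * q + 2 + 1 = 3 * (q + 1) := by ring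
        have e4 : 3 * q + 2 + 2 * 1 + 1 = 3 * (q + 1) + 2 := by ring
        rw [e3, e4, v0, v2] at h1
        cases hw : v (q+1) <;> simp [hw] at h1
    · have h3 : (2 * k) % 3 = 0 ∨ (2 * k) % 3 = 1 ∨ (2 * k) % 3 = 2 := by omega
      rcases h3 with h3 | h3 | h3
      · obtain ⟨k', hk'⟩ : ∃ k', k = 3 * k' := ⟨k / 3, by omega⟩
        apply ih k' (by omega) (by omega) ((i + 2) / 3)
        intro t ht
        have := h (3 * ((i + 2) / 3 + t) - i) (by omega)
        have e1 : i + (3 * ((i + 2) / 3 + t) - i) = 3 * ((i + 2) / 3 + t) := by omega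
        have e2 : i + 2 * k + (3 * ((i + 2) / 3 + t) - i) = 3 * ((i + 2) / 3 + 2 * k' + t) := by
          omega
        rw [e1, e2, v0, v0] at this
        exact this
      · obtain ⟨s, hs⟩ : ∃ s, 2 * k = 3 * s + 1 := ⟨(2 * k) / 3, by omega⟩
        have a0 := h (3 * ((i + 2) / 3) - i) (by omega)
        have a1 := h (3 * ((i + 2) / 3) + 1 - i) (by omega)
        have e1 : i + (3 * ((i + 2) / 3) - i) = 3 * ((i + 2) / 3) := by omega
        have e2 : i + 2 * k + (3 * ((i + 2) / 3) - i) = 3 * ((i + 2) / 3 + s) + 1 := by omega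
        have e3 : i + (3 * ((i + 2) / 3) + 1 - i) = 3 * ((i + 2) / 3) + 1 := by omega
        have e4 : i + 2 * k + (3 * ((i + 2) / 3) + 1 - i) = 3 * ((i + 2) / 3 + s) + 2 := by omega
        rw [e1, e2, v0, v1] at a0
        rw [e3, e4, v1, v2] at a1
        rw [a0] at a1
        cases hw : v ((i + 2) / 3 + s) <;> simp [hw] at a1
      · obtain ⟨s, hs⟩ : ∃ s, 2 * k = 3 * s + 2 := ⟨(2 * k) / 3, by omega⟩
        have a0 := h (3 * ((i + 1) / 3) + 1 - i) (by omega)
        have a1 := h (3 * ((i + 1) / 3) + 2 - i) (by omega)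
        have e1 : i + (3 * ((i + 1) / 3) + 1 - i) = 3 * ((i + 1) / 3) + 1 := by omega
        have e2 : i + 2 * k + (3 * ((i + 1) / 3) + 1 - i) = 3 * ((i + 1) / 3 + s + 1) := by omega
        have e3 : i + (3 * ((i + 1) / 3) + 2 - i) = 3 * ((i + 1) / 3) + 2 := by omega
        have e4 : i + 2 * k + (3 * ((i + 1) / 3) + 2 - i) = 3 * ((i + 1) / 3 + s + 1) + 1 := by
          omega
        rw [e1, e2, v1, v0] at a0
        rw [e3, e4, v2, v1] at a1
        rw [← a0] at a1
        cases hw : v ((i + 1) / 3) <;> simp [hw] at a1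

end SquareHole
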