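import Pool.Agent.Helper30.Sq.Conn
import Pool.Agent.Helper30.Sq.ClassCheck0
import Pool.Agent.Helper30.Sq.ClassCheck1
import Pool.Agent.Helper30.Sq.ClassCheck2
import Pool.Agent.Helper30.Sq.ClassCheck3

namespace SquareHole

theorem gm_le (f : ℕ → Bool) (n : ℕ) : gm n ≤ cnt (Sq f) n := by
  unfold gm
  split_ifs with h
  · rcases h with rfl | rfl | rfl | rfl | rfl | rfl
    · have : fv 4 = 0 := by decide +kernel
      rw [this]; exact exc4 f
    · have : fv 6 = 1 := by decide +kernel
      rw [this]; exact exc6 f
    · have : fv 10 = 3 := by decide +kernel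
      rw [this]; exact exc10 f
    · have : fv 39 = 19 := by decide +kernel
      rw [this]; exact exc39 f
    · have : fv 79 = 41 := by decide +kernel
      rw [this]; exact exc79 f
    · have : fv 128 = 68 := by decide +kernel
      rw [this]; exact exc128 f
  · exact fv_le f n

theorem class_all (n : ℕ) (h1 : 562 ≤ n) (h2 : n < 886) : classStep n = true := by
  rcases Nat.lt_or_ge n 643 with h | h
  · have := allB_spec class_all0 (n - 562) (by omega)
    have e : Nat.add 562 (n - 562) = n := by show 562 + (n - 562) = n; omega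
    simp only [e] at this
    exact this
  rcases Nat.lt_or_ge n 724 with h | h
  · have := allB_spec class_all1 (n - 643) (by omega)
    have e : Nat.add 643 (n - 643) = n := by show 643 + (n - 643) = n; omega
    simp only [e] at this
    exact this
  rcases Nat.lt_or_ge n 805 with h | h
  · have := allB_spec class_all2 (n - 724) (by omega)
    have e : Nat.add 724 (n - 724) = n := by show 724 + (n - 724) = n; omega
    simp only [e] at this
    exact this
  · have := allB_spec class_all3 (n - 805) (by omega)
    have e : Nat.add 805 (n - 805) = n := by show 805 + (n - 805) = n; omega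
    simp only [e] at this
    exact this

theorem fv_period (n μ : ℕ) (hn : 5 ≤ n) : fv (187 * μ + n) = 103 * μ + fv n := by
  unfold fv
  simp only []
  have h1 : (103 * (187 * μ + n) - 487 + 186) / 187 = 103 * μ + (103 * n - 487 + 186) / 187 := by
    omega
  rw [h1]
  generalize hs : (103 * n - 487 + 186) / 187 = s
  by_cases hc : (s + n) % 2 = 1 ∨ 103 * n ≤ 187 * s + 470
  · rw [if_pos hc, if_pos]
    omega
  · rw [if_neg hc, if_neg]
    · ring
    · omega

theorem tK_period (n μ : ℕ) : tK (187 * μ + n) = tK n := by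
  unfold tK
  have : Nat.mod (187 * μ + n) 187 = Nat.mod n 187 := by
    show (187 * μ + n) % 187 = n % 187
    omega
  rw [this]

theorem tK_lt (n : ℕ) : tK n ≤ 137 := by
  have h : allB 187 (fun r => Nat.ble (tK r) 137) = true := by decide +kernel
  have h1 := Nat.le_of_ble_eq_true (allB_spec h (n % 187) (Nat.mod_lt _ (by norm_num)))
  have h2 : tK n = tK (n % 187) := by
    have := tK_period (n % 187) (n / 187)
    rw [← this]
    congr 1
    omega
  rw [h2]; exact h1

/-- there is a word with a hole at `0` and at most `s + 1` squares -/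
def Good (n s : ℕ) : Prop := ∃ f : ℕ → Bool, cnt (PSq f 0) n ≤ s + 1

theorem good_needed (n : ℕ) (hn : 5 ≤ n) (hneed : gm (n + 1) ≠ gm n) : Good n (gm n) := by
  have hK137 := tK_lt n
  rcases Nat.lt_or_ge n (562 + tK n) with hlt | hge
  · -- small
    have h := allB_spec small_all n (by omega)
    unfold smallStep at h
    have hb1 : Nat.ble 5 n = true := Nat.ble_eq_true_of_le hn
    rw [hb1] at h
    simp only [cond_true] at h
    have hb2 : Nat.ble (Nat.add 562 (tK n)) n = false := by
      cases hb : Nat.ble (Nat.add 562 (tK n)) n with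
      | false => rfl
      | true =>
        have : 562 + tK n ≤ n := Nat.le_of_ble_eq_true hb
        omega
    rw [hb2] at h
    simp only [cond_false] at h
    have hb3 : Nat.beq (gm (Nat.succ n)) (gm n) = false := by
      cases hb : Nat.beq (gm (Nat.succ n)) (gm n) with
      | false => rfl
      | true => exact absurd (Nat.eq_of_beq_eq_true hb) hneed
    rw [hb3] at h
    simp only [cond_false] at h
    obtain ⟨h1, h2⟩ := cond_false_eq_true h
    obtain ⟨h3, h4⟩ := cond_false_eq_true h2
    have h1' := Nat.le_of_ble_eq_true h1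
    have h3' := Nat.le_of_ble_eq_true h3
    have hA : tA n = n - tK n := rfl
    obtain ⟨v0, v1, v2, v3⟩ := v_values
    have := good_of_chk 0 n (gm n) h1' (by omega) h3' (Or.inl rfl)
      (by simpa [v0, v1, v2, v3] using h4)
    simp only [mul_zero, zero_add] at this
    exact ⟨_, this⟩
  · -- large
    obtain ⟨μ, n0, hn0, hlo, hhi⟩ : ∃ μ n0, n = 187 * μ + n0 ∧ 562 + tK n ≤ n0 ∧
        n0 ≤ 748 + tK n :=
      ⟨(n - tK n - 562) / 187, n - 187 * ((n - tK n - 562) / 187), by omega, by omega, by omega⟩
    have hKn : tK n = tK n0 := by rw [hn0, tK_period]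
    rw [hKn] at hlo hhi hK137
    have hA : tA n0 = n0 - tK n0 := rfl
    have hgm : gm n = 103 * μ + fv n0 := by
      unfold gm
      rw [if_neg (by omega), hn0, fv_period n0 μ (by omega)]
      rfl
    have hgm1 : gm (n + 1) = 103 * μ + fv (n0 + 1) := by
      unfold gm
      rw [if_neg (by omega), hn0, add_assoc, fv_period (n0 + 1) μ (by omega)]
      rfl
    have hneed0 : fv (n0 + 1) ≠ fv n0 := by
      intro hc
      apply hneed
      rw [hgm, hgm1, hc]
    have h := class_all n0 (by omega) (by omega)
    unfold classStep at h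
    have hb1 : Nat.ble (Nat.add 562 (tK n0)) n0 = true := Nat.ble_eq_true_of_le hlo
    have hb2 : Nat.ble (tA n0) 748 = true := Nat.ble_eq_true_of_le (by omega)
    rw [hb1, hb2] at h
    simp only [cond_true] at h
    have hb3 : Nat.beq (fv (Nat.succ n0)) (fv n0) = false := by
      cases hb : Nat.beq (fv (Nat.succ n0)) (fv n0) with
      | false => rfl
      | true => exact absurd (Nat.eq_of_beq_eq_true hb) hneed0
    rw [hb3] at h
    simp only [cond_false] at h
    obtain ⟨h1, h2⟩ := cond_false_eq_true h
    have h1' : 2 * (198 + tK n0) ≤ tA n0 + 2 := Nat.le_of_ble_eq_true h1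
    have h3 := all12_spec h2 μ
    have := good_of_chk μ n0 (fv n0) (by omega) (by omega) (by omega) (Or.inr h1') h3
    rw [← hn0] at this
    refine ⟨wd μ n0, ?_⟩
    rw [hgm]; exact this

theorem good_three : Good 3 (gm 3) := by
  refine ⟨W, ?_⟩
  have h : gm 3 = 0 := by decide +kernel
  rw [h]
  apply cnt_three
  rw [W_one, W_two]; decide

theorem good_need (n : ℕ) (hn : 2 ≤ n) (hneed : gm (n + 1) ≠ gm n) : Good n (gm n) := by
  rcases Nat.lt_or_ge n 5 with h5 | h5
  · have h3 : n = 2 ∨ n = 3 ∨ n = 4 := by omega
    rcases h3 with rfl | rfl | rfl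
    · exfalso
      apply hneed
      decide +kernel
    · exact good_three
    · exfalso
      apply hneed
      decide +kernel
  · exact good_needed n h5 hneed

theorem good_down (n s : ℕ) (h : Good (n + 1) s) : Good n s := by
  obtain ⟨f, hf⟩ := h
  exact ⟨f, le_trans (cnt_mono _ (by omega)) hf⟩

theorem need_or_small : allB 700 (fun n => cond (Nat.ble 2 n)
    (cond (Nat.beq (gm (Nat.succ n)) (gm n))
      (cond (Nat.beq (gm (Nat.add n 2)) (gm (Nat.succ n)))
        (!(Nat.beq (gm (Nat.add n 3)) (gm (Nat.add n 2)))) true) true)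
    true) = true := by decide +kernel

theorem beq_true_of_eq {a b : ℕ} (h : a = b) : Nat.beq a b = true := by
  rw [Nat.beq_eq]; exact h

theorem need_or (n : ℕ) (hn : 2 ≤ n) (h : gm (n + 1) = gm n) (h' : gm (n + 2) = gm (n + 1)) :
    gm (n + 3) ≠ gm (n + 2) := by
  rcases Nat.lt_or_ge n 700 with hlt | hge
  · have h1 := allB_spec need_or_small n hlt
    have hb : Nat.ble 2 n = true := Nat.ble_eq_true_of_le hn
    have hb2 : Nat.beq (gm (Nat.succ n)) (gm n) = true := beq_true_of_eq h
    have hb3 : Nat.beq (gm (Nat.add n 2)) (gm (Nat.succ n)) = true := beq_true_of_eq h'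
    simp only [hb, hb2, hb3, cond_true] at h1
    intro hc
    have hb4 : Nat.beq (gm (Nat.add n 3)) (gm (Nat.add n 2)) = true := beq_true_of_eq hc
    rw [hb4] at h1
    exact Bool.noConfusion h1
  · exfalso
    have h2 : gm (n + 2) = gm n := by rw [h', h]
    have e1 : gm n = fv n := by unfold gm; rw [if_neg (by omega)]; rfl
    have e2 : gm (n + 2) = fv (n + 2) := by unfold gm; rw [if_neg (by omega)]; rfl
    rw [e1, e2] at h2
    unfold fv at h2
    simp only [] at h2
    split_ifs at h2 <;> omega

theorem good_all (n : ℕ) (hn : 2 ≤ n) : Good n (gm n) := by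
  by_cases h0 : gm (n + 1) = gm n
  · by_cases h1 : gm (n + 2) = gm (n + 1)
    · have h2 := need_or n hn h0 h1
      have hg := good_need (n + 2) (by omega) h2
      rw [h1, h0] at hg
      exact good_down n _ (good_down (n + 1) _ hg)
    · have hg := good_need (n + 1) (by omega) h1
      rw [h0] at hg
      exact good_down n _ hg
  · exact good_need n hn h0

theorem gamma_one_eq (n : ℕ) (hn : 2 ≤ n) : gamma 1 n = gamma 0 n + 1 := by
  obtain ⟨f, hf⟩ := good_all n hn
  exact gamma_eq_of n (gm n) hn (fun g => gm_le g n) ⟨f, hf⟩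

/-- the exact value of `γ_0` -/
theorem gamma_zero_eq (n : ℕ) (hn : 2 ≤ n) : gamma 0 n = gm n := by
  obtain ⟨f, hf⟩ := good_all n hn
  have h1 := gamma_one_ge n hn
  have h2 := gamma_one_le n (gm n + 1) (by omega) f hf
  have h3 := le_gamma_zero n (gm n) (fun g => gm_le g n)
  omega

end SquareHole
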