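import Pool.Agent.Helper30.Sq.Code
import Pool.Agent.Helper30.Sq.Table

namespace SquareHole

def allB (n : ℕ) (f : ℕ → Bool) : Bool := Nat.rec true (fun k ih => cond (f k) ih false) n

theorem allB_spec {n : ℕ} {f : ℕ → Bool} (h : allB n f = true) : ∀ i, i < n → f i = true := by
  induction n with
  | zero => intro i hi; omega
  | succ n ih =>
    have h' : cond (f n) (allB n f) false = true := h
    intro i hi
    cases hf : f n with
    | false => rw [hf] at h'; simp at h'
    | true =>
      rw [hf] at h'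
      simp only [cond_true] at h'
      rcases Nat.lt_succ_iff_lt_or_eq.1 hi with h1 | h1
      · exact ih h' i h1
      · rw [h1]; exact hf

/-- `i`-th table entry -/
def ent (i : ℕ) : ℕ := Nat.mod (Nat.shiftRight tbl (Nat.mul 384 i)) (Nat.pow 2 384)
def ctx0 (E : ℕ) : ℕ := Nat.mod E (Nat.pow 2 276)
/-- number of letters of the context -/
def len (E : ℕ) : ℕ := Nat.mod (Nat.shiftRight E 276) 512
/-- context of an entry whose last letter is `l` -/
def ctx (E : ℕ) (l : Bool) : ℕ :=
  cond l (Nat.sub (Nat.sub (Nat.pow 2 (len E)) 1) (ctx0 E)) (ctx0 E)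
def nx (E : ℕ) (d : Bool) : ℕ := Nat.mod (Nat.shiftRight E (cond d 296 285)) 2048
def per0 (E : ℕ) (d : Bool) : ℕ := Nat.mod (Nat.shiftRight E (cond d 323 307)) 256
def per1 (E : ℕ) (d : Bool) : ℕ := Nat.mod (Nat.shiftRight E (cond d 331 315)) 256
def phi0 (E : ℕ) : ℕ := Nat.mod (Nat.shiftRight E 339) 2048
def phi1 (E : ℕ) : ℕ := Nat.mod (Nat.shiftRight E 350) 2048
def psi0 (E : ℕ) : ℕ := Nat.mod (Nat.shiftRight E 361) 2048
def psi1 (E : ℕ) : ℕ := Nat.mod (Nat.shiftRight E 372) 2048

def perOK (x L j : ℕ) : Bool :=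
  cond (Nat.beq j 0) true
    (cond (Nat.ble (Nat.mul 2 j) L)
      (Nat.beq (Nat.mod x (Nat.pow 2 j)) (Nat.mod (Nat.div x (Nat.pow 2 j)) (Nat.pow 2 j))) false)

/-- cost of a pair of listed periods -/
def cost (j0 j1 : ℕ) : ℕ := cond (Nat.beq j0 0) 0 (cond (Nat.beq j1 0) 1 2)

def bsel (b : Bool) : ℕ := cond b 1 0

def potOK (c A0 A1 B0 B1 : ℕ) : Bool :=
  cond (Nat.beq c 1)
    (cond (Nat.ble (Nat.add B0 103) (Nat.add A0 187)) (Nat.ble (Nat.add B1 103) (Nat.add A1 187)) false)
    (cond (Nat.ble (Nat.add B1 103) (Nat.add A0 (Nat.mul 187 c)))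
      (Nat.ble (Nat.add B0 103) (Nat.add A1 (Nat.mul 187 c))) false)

def checkOne (E : ℕ) (l b : Bool) : Bool :=
  let d := xor l b
  let L := Nat.succ (len E)
  let x := Nat.add (Nat.mul 2 (ctx E l)) (bsel b)
  let i' := nx E d
  let E' := ent i'
  let j0 := per0 E d
  let j1 := per1 E d
  cond (Nat.ble (Nat.succ i') 1250)
    (cond (Nat.ble (len E') L)
      (cond (Nat.beq (Nat.mod x (Nat.pow 2 (len E'))) (ctx E' b))
        (cond (perOK x L j0)
          (cond (perOK x L j1)
            (cond (cond (Nat.beq j0 j1) (Nat.beq j0 0) true)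
              (cond (potOK (cost j0 j1) (phi0 E) (phi1 E) (phi0 E') (phi1 E'))
                (potOK (cost j0 j1) (psi0 E') (psi1 E') (psi0 E) (psi1 E)) false) false) false) false)
        false) false) false

def checkState (i : ℕ) : Bool :=
  let E := ent i
  cond (checkOne E false false) (cond (checkOne E false true)
    (cond (checkOne E true false) (cond (checkOne E true true)
      (cond (Nat.ble 130 (phi0 E)) (cond (Nat.ble 113 (phi1 E)) (Nat.ble (psi0 E) 500) false)
        false) false) false) false) false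

set_option maxRecDepth 100000 in
theorem checkAll_true : allB 1250 checkState = true := by decide +kernel


/-- `E`, with last letter `l`, describes the end of `f[0..m)` -/
def Match (f : ℕ → Bool) (m E : ℕ) (l : Bool) : Prop :=
  len E ≤ m ∧ ctx E l = code f m % 2 ^ (len E)

theorem perOK_spec {x L j : ℕ} (h : perOK x L j = true) :
    j = 0 ∨ (2 * j ≤ L ∧ x % 2 ^ j = (x / 2 ^ j) % 2 ^ j) := by
  unfold perOK at h
  cases h0 : Nat.beq j 0 with
  | true => left; exact Nat.eq_of_beq_eq_true h0
  | false =>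
    right
    rw [h0] at h
    simp only [cond_false] at h
    cases h1 : Nat.ble (Nat.mul 2 j) L with
    | false => rw [h1] at h; simp at h
    | true =>
      rw [h1] at h
      simp only [cond_true] at h
      exact ⟨Nat.le_of_ble_eq_true h1, Nat.eq_of_beq_eq_true h⟩

theorem cond_false_eq_true {a b : Bool} (h : cond a b false = true) : a = true ∧ b = true := by
  cases a <;> simp_all

theorem bsel_eq (b : Bool) : bsel b = b.toNat := by cases b <;> rfl

/-- Invariant: there is a table entry matching the end of the prefix of length `m`, and a lower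
bound `V` for the number of squares in the prefix compatible with the potential. -/
def Inv (f : ℕ → Bool) (m : ℕ) : Prop :=
  ∃ (i : ℕ) (l : Bool) (V : ℕ), i < 1250 ∧ V ≤ cnt (Sq f) m ∧ Match f m (ent i) l ∧
    (((V + m) % 2 = 0 ∧ 103 * m + phi0 (ent i) ≤ 187 * V + 600) ∨
      ((V + m) % 2 = 1 ∧ 103 * m + phi1 (ent i) ≤ 187 * V + 600))

theorem potOK_spec {c A0 A1 B0 B1 : ℕ} (h : potOK c A0 A1 B0 B1 = true) :
    (c = 1 ∧ B0 + 103 ≤ A0 + 187 ∧ B1 + 103 ≤ A1 + 187) ∨
    (c ≠ 1 ∧ B1 + 103 ≤ A0 + 187 * c ∧ B0 + 103 ≤ A1 + 187 * c) := by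
  unfold potOK at h
  cases h0 : Nat.beq c 1 with
  | true =>
    left
    rw [h0] at h
    simp only [cond_true] at h
    obtain ⟨h1, h2⟩ := cond_false_eq_true h
    exact ⟨Nat.eq_of_beq_eq_true h0, Nat.le_of_ble_eq_true h1, Nat.le_of_ble_eq_true h2⟩
  | false =>
    right
    rw [h0] at h
    simp only [cond_false] at h
    obtain ⟨h1, h2⟩ := cond_false_eq_true h
    exact ⟨Nat.ne_of_beq_eq_false h0, Nat.le_of_ble_eq_true h1, Nat.le_of_ble_eq_true h2⟩

theorem cost_spec (f : ℕ → Bool) (m x L j0 j1 : ℕ) (hL : L ≤ m + 1)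
    (hx : x % 2 ^ L = code f (m + 1) % 2 ^ L)
    (h0 : perOK x L j0 = true) (h1 : perOK x L j1 = true)
    (hne : cond (Nat.beq j0 j1) (Nat.beq j0 0) true = true) :
    cost j0 j1 ≤ ends (Sq f) (m + 1) := by
  have key : ∀ j, perOK x L j = true → j ≠ 0 → 1 ≤ j ∧ 2 * j ≤ m + 1 ∧
      Sq f (m + 1 - 2 * j) j := by
    intro j hj hj0
    rcases perOK_spec hj with h | ⟨h2, h3⟩
    · exact absurd h hj0
    · refine ⟨by omega, by omega, ?_⟩
      rw [sq_iff_code]
      have e : m + 1 - 2 * j + 2 * j = m + 1 := by omega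
      rw [e]
      have h4 := mod_of_mod_le _ _ L (2 * j) h2 hx
      have h5 := div_mod_of_mod _ _ j h4
      rw [← h5.1, ← h5.2]
      exact h3
  unfold cost
  cases hb0 : Nat.beq j0 0 with
  | true => simp
  | false =>
    have hj0 := Nat.ne_of_beq_eq_false hb0
    obtain ⟨a1, a2, a3⟩ := key j0 h0 hj0
    simp only [cond_false]
    cases hb1 : Nat.beq j1 0 with
    | true => simp only [cond_true]; exact ends_ge_one f _ j0 a1 a2 a3
    | false =>
      have hj1 := Nat.ne_of_beq_eq_false hb1
      obtain ⟨b1, b2, b3⟩ := key j1 h1 hj1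
      simp only [cond_false]
      have hne' : j0 ≠ j1 := by
        intro hc
        rw [hc] at hne
        simp only [Nat.beq_refl, cond_true] at hne
        exact hj1 (Nat.eq_of_beq_eq_true hne)
      exact ends_ge_two f _ j0 j1 hne' a1 a2 a3 b1 b2 b3

/-- What a successful check gives for the next letter. -/
theorem checkOne_step (f : ℕ → Bool) (m E : ℕ) (l : Bool)
    (hc : checkOne E l (f m) = true) (hM : Match f m E l) :
    ∃ i' c, i' = nx E (xor l (f m)) ∧ c = cost (per0 E (xor l (f m))) (per1 E (xor l (f m))) ∧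
      i' < 1250 ∧ Match f (m + 1) (ent i') (f m) ∧ c ≤ ends (Sq f) (m + 1) ∧ c ≤ 2 ∧
      potOK c (phi0 E) (phi1 E) (phi0 (ent i')) (phi1 (ent i')) = true ∧
      potOK c (psi0 (ent i')) (psi1 (ent i')) (psi0 E) (psi1 E) = true := by
  unfold checkOne at hc
  simp only [] at hc
  obtain ⟨h1, hc⟩ := cond_false_eq_true hc
  obtain ⟨h2, hc⟩ := cond_false_eq_true hc
  obtain ⟨h3, hc⟩ := cond_false_eq_true hc
  obtain ⟨h4, hc⟩ := cond_false_eq_true hc
  obtain ⟨h5, hc⟩ := cond_false_eq_true hc
  obtain ⟨h6, hc⟩ := cond_false_eq_true hc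
  obtain ⟨h7, h8⟩ := cond_false_eq_true hc
  obtain ⟨hM1, hM2⟩ := hM
  set x := Nat.add (Nat.mul 2 (ctx E l)) (bsel (f m)) with hx
  have hx' : x = 2 * (code f m % 2 ^ (len E)) + (f m).toNat := by
    rw [hx, bsel_eq]
    show 2 * ctx E l + _ = _
    rw [hM2]
  have hx2 : x = code f (m + 1) % 2 ^ (len E + 1) := by
    rw [hx', ← two_mul_add_mod]; rfl
  have hx3 : x % 2 ^ (Nat.succ (len E)) = code f (m + 1) % 2 ^ (Nat.succ (len E)) := by
    rw [hx2]; exact Nat.mod_mod _ _
  have h2' := Nat.le_of_ble_eq_true h2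
  have h1' := Nat.le_of_ble_eq_true h1
  have hcost := cost_spec f m x (Nat.succ (len E)) _ _ (by omega) hx3 h4 h5 h6
  have h3' := Nat.eq_of_beq_eq_true h3
  refine ⟨_, _, rfl, rfl, by omega, ⟨by omega, ?_⟩, hcost, ?_, h7, h8⟩
  · rw [← h3']
    exact mod_of_mod_le _ _ _ _ h2' hx3
  · unfold cost
    cases (per0 E (xor l (f m))).beq 0 <;> cases (per1 E (xor l (f m))).beq 0 <;> simp

theorem checkState_one (i : ℕ) (hi : i < 1250) (l b : Bool) : checkOne (ent i) l b = true := by
  have hs := allB_spec checkAll_true i hi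
  unfold checkState at hs
  simp only [] at hs
  obtain ⟨h1, hs⟩ := cond_false_eq_true hs
  obtain ⟨h2, hs⟩ := cond_false_eq_true hs
  obtain ⟨h3, hs⟩ := cond_false_eq_true hs
  obtain ⟨h4, hs⟩ := cond_false_eq_true hs
  cases l
  · cases b
    · exact h1
    · exact h2
  · cases b
    · exact h3
    · exact h4

theorem checkState_pot (i : ℕ) (hi : i < 1250) :
    130 ≤ phi0 (ent i) ∧ 113 ≤ phi1 (ent i) ∧ psi0 (ent i) ≤ 500 := by
  have hs := allB_spec checkAll_true i hi
  unfold checkState at hs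
  simp only [] at hs
  obtain ⟨h1, hs⟩ := cond_false_eq_true hs
  obtain ⟨h2, hs⟩ := cond_false_eq_true hs
  obtain ⟨h3, hs⟩ := cond_false_eq_true hs
  obtain ⟨h4, hs⟩ := cond_false_eq_true hs
  obtain ⟨h5, hs⟩ := cond_false_eq_true hs
  obtain ⟨h6, h7⟩ := cond_false_eq_true hs
  exact ⟨Nat.le_of_ble_eq_true h5, Nat.le_of_ble_eq_true h6, Nat.le_of_ble_eq_true h7⟩

theorem match_one (f : ℕ → Bool) : Match f 1 (ent 0) (f 0) := by
  have h1 : len (ent 0) = 1 := by decide +kernel
  have h2 : ctx (ent 0) false = 0 := by decide +kernel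
  have h3 : ctx (ent 0) true = 1 := by decide +kernel
  refine ⟨by omega, ?_⟩
  rw [h1]
  cases h : f 0 <;> simp [code, h, h2, h3]

theorem inv_all (f : ℕ → Bool) (m : ℕ) : Inv f (m + 1) := by
  induction m with
  | zero =>
    refine ⟨0, f 0, 0, by norm_num, Nat.zero_le _, match_one f, ?_⟩
    right
    have : phi1 (ent 0) = 497 := by decide +kernel
    rw [this]; constructor <;> norm_num
  | succ m ih =>
    obtain ⟨i, l, V, hi, hV, hM, hpot⟩ := ih
    obtain ⟨i', c, -, -, hi', hM', hc, hc2, hp, -⟩ :=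
      checkOne_step f (m + 1) (ent i) l (checkState_one i hi l _) hM
    refine ⟨i', f (m+1), V + c, hi', ?_, hM', ?_⟩
    · rw [cnt_succ]; omega
    · rcases potOK_spec hp with ⟨e1, e2, e3⟩ | ⟨e1, e2, e3⟩
      · rw [e1] at *
        rcases hpot with ⟨p1, p2⟩ | ⟨p1, p2⟩
        · left; constructor <;> omega
        · right; constructor <;> omega
      · have hc3 : c = 0 ∨ c = 2 := by omega
        rcases hpot with ⟨p1, p2⟩ | ⟨p1, p2⟩
        · right; constructor
          · rcases hc3 with h | h <;> omega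
          · rcases hc3 with h | h <;> omega
        · left; constructor
          · rcases hc3 with h | h <;> omega
          · rcases hc3 with h | h <;> omega

/-- The lower bound for the number of squares of a full binary word of length `m ≥ 1`. -/
theorem lower (f : ℕ → Bool) (m : ℕ) (hm : 1 ≤ m) : ∃ V, V ≤ cnt (Sq f) m ∧
    (((V + m) % 2 = 0 ∧ 103 * m ≤ 187 * V + 470) ∨
      ((V + m) % 2 = 1 ∧ 103 * m ≤ 187 * V + 487)) := by
  obtain ⟨k, rfl⟩ : ∃ k, m = k + 1 := ⟨m - 1, by omega⟩
  obtain ⟨i, l, V, hi, hV, hM, hpot⟩ := inv_all f k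
  obtain ⟨h5', h6', -⟩ := checkState_pot i hi
  refine ⟨V, hV, ?_⟩
  rcases hpot with ⟨p1, p2⟩ | ⟨p1, p2⟩
  · left; constructor <;> omega
  · right; constructor <;> omega

/-- Explicit form of the lower bound. -/
def fv (n : ℕ) : ℕ :=
  let s := (103 * n - 487 + 186) / 187
  if (s + n) % 2 = 1 ∨ 103 * n ≤ 187 * s + 470 then s else s + 1

theorem fv_le (f : ℕ → Bool) (n : ℕ) : fv n ≤ cnt (Sq f) n := by
  rcases Nat.eq_zero_or_pos n with h | h
  · subst h
    simp [fv]
  · obtain ⟨V, hV, hV2⟩ := lower f n h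
    refine le_trans ?_ hV
    unfold fv
    simp only []
    have h1 : (103 * n - 487 + 186) / 187 ≤ V := by omega
    split_ifs with hc
    · exact h1
    · push Not at hc
      obtain ⟨hc1, hc2⟩ := hc
      by_contra hlt
      have : V = (103 * n - 487 + 186) / 187 := by omega
      rw [← this] at hc1 hc2
      omega

/-- backward potential -/
theorem psi_bound (f : ℕ → Bool) : ∀ (rem m i : ℕ) (l : Bool) (V : ℕ), i < 1250 →
    Match f m (ent i) l → V ≤ cnt (Sq f) m →
    ∃ G, V + G ≤ cnt (Sq f) (m + rem) ∧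
      (((G + rem) % 2 = 0 ∧ 103 * rem + psi0 (ent i) ≤ 187 * G + 500) ∨
       ((G + rem) % 2 = 1 ∧ 103 * rem + psi1 (ent i) ≤ 187 * G + 500)) := by
  intro rem
  induction rem with
  | zero =>
    intro m i l V hi hM hV
    refine ⟨0, by simpa using hV, ?_⟩
    have := (checkState_pot i hi).2.2
    left; constructor
    · rfl
    · omega
  | succ rem ih =>
    intro m i l V hi hM hV
    obtain ⟨i', c, -, -, hi', hM', hc, hc2, -, hp⟩ :=
      checkOne_step f m (ent i) l (checkState_one i hi l _) hM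
    obtain ⟨G, hG, hG2⟩ := ih (m + 1) i' (f m) (V + c) hi' hM' (by rw [cnt_succ]; omega)
    refine ⟨G + c, ?_, ?_⟩
    · have : m + (rem + 1) = m + 1 + rem := by omega
      rw [this]; omega
    · rcases potOK_spec hp with ⟨e1, e2, e3⟩ | ⟨e1, e2, e3⟩
      · rcases hG2 with ⟨p1, p2⟩ | ⟨p1, p2⟩
        · left; constructor <;> omega
        · right; constructor <;> omega
      · have hc3 : c = 0 ∨ c = 2 := by omega
        rcases hG2 with ⟨p1, p2⟩ | ⟨p1, p2⟩
        · right; constructor
          · rcases hc3 with h | h <;> omega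
          · rcases hc3 with h | h <;> omega
        · left; constructor
          · rcases hc3 with h | h <;> omega
          · rcases hc3 with h | h <;> omega

/-- pruning test: from an entry `E` with `rem` letters to go and `V` squares so far, at least
`T+1` squares in the end -/
def pruneB (T rem E V : ℕ) : Bool :=
  cond (Nat.ble (Nat.succ T) V) true
    (cond (Nat.beq (Nat.mod (Nat.add (Nat.sub T V) rem) 2) 0)
      (cond (Nat.ble (Nat.add (Nat.mul 187 (Nat.sub T V)) 501) (Nat.add (Nat.mul 103 rem) (psi0 E)))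
        (Nat.ble (Nat.add (Nat.mul 187 (Nat.sub T V)) 314) (Nat.add (Nat.mul 103 rem) (psi1 E)))
        false)
      (cond (Nat.ble (Nat.add (Nat.mul 187 (Nat.sub T V)) 501) (Nat.add (Nat.mul 103 rem) (psi1 E)))
        (Nat.ble (Nat.add (Nat.mul 187 (Nat.sub T V)) 314) (Nat.add (Nat.mul 103 rem) (psi0 E)))
        false))

theorem pruneB_spec (f : ℕ → Bool) (T rem m i : ℕ) (l : Bool) (V : ℕ) (hi : i < 1250)
    (hM : Match f m (ent i) l) (hV : V ≤ cnt (Sq f) m) (h : pruneB T rem (ent i) V = true) :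
    T < cnt (Sq f) (m + rem) := by
  by_contra hcon
  push Not at hcon
  obtain ⟨G, hG, hG2⟩ := psi_bound f rem m i l V hi hM hV
  unfold pruneB at h
  cases h1 : Nat.ble (Nat.succ T) V with
  | true => have := Nat.le_of_ble_eq_true h1; omega
  | false =>
    rw [h1] at h
    simp only [cond_false] at h
    cases h2 : Nat.beq (Nat.mod (Nat.add (Nat.sub T V) rem) 2) 0 with
    | true =>
      rw [h2] at h
      simp only [cond_true] at h
      obtain ⟨h3, h4⟩ := cond_false_eq_true h
      have h3' : 187 * (T - V) + 501 ≤ 103 * rem + psi0 (ent i) := Nat.le_of_ble_eq_true h3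
      have h4' : 187 * (T - V) + 314 ≤ 103 * rem + psi1 (ent i) := Nat.le_of_ble_eq_true h4
      have h2' : (T - V + rem) % 2 = 0 := Nat.eq_of_beq_eq_true h2
      rcases hG2 with ⟨p1, p2⟩ | ⟨p1, p2⟩ <;> omega
    | false =>
      rw [h2] at h
      simp only [cond_false] at h
      obtain ⟨h3, h4⟩ := cond_false_eq_true h
      have h3' : 187 * (T - V) + 501 ≤ 103 * rem + psi1 (ent i) := Nat.le_of_ble_eq_true h3
      have h4' : 187 * (T - V) + 314 ≤ 103 * rem + psi0 (ent i) := Nat.le_of_ble_eq_true h4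
      have h2' : (T - V + rem) % 2 ≠ 0 := Nat.ne_of_beq_eq_false h2
      rcases hG2 with ⟨p1, p2⟩ | ⟨p1, p2⟩ <;> omega

def dfs (T : ℕ) (rem : ℕ) : ℕ → Bool → ℕ → Bool :=
  Nat.rec (motive := fun _ => ℕ → Bool → ℕ → Bool) (fun _ _ V => Nat.ble (Nat.succ T) V)
    (fun rem ih i l V =>
      cond (cond (pruneB T rem (ent (nx (ent i) (xor l false)))
          (Nat.add V (cost (per0 (ent i) (xor l false)) (per1 (ent i) (xor l false))))) true
          (ih (nx (ent i) (xor l false)) false
            (Nat.add V (cost (per0 (ent i) (xor l false)) (per1 (ent i) (xor l false))))))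
        (cond (pruneB T rem (ent (nx (ent i) (xor l true)))
          (Nat.add V (cost (per0 (ent i) (xor l true)) (per1 (ent i) (xor l true))))) true
          (ih (nx (ent i) (xor l true)) true
            (Nat.add V (cost (per0 (ent i) (xor l true)) (per1 (ent i) (xor l true))))))
        false) rem

theorem dfs_succ (T rem i : ℕ) (l : Bool) (V : ℕ) (h : dfs T (rem + 1) i l V = true) (b : Bool) :
    pruneB T rem (ent (nx (ent i) (xor l b)))
        (V + (cost (per0 (ent i) (xor l b)) (per1 (ent i) (xor l b)))) = true ∨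
    dfs T rem (nx (ent i) (xor l b)) b
        (V + (cost (per0 (ent i) (xor l b)) (per1 (ent i) (xor l b)))) = true := by
  have h' : cond (cond (pruneB T rem (ent (nx (ent i) (xor l false)))
          (Nat.add V (cost (per0 (ent i) (xor l false)) (per1 (ent i) (xor l false))))) true
          (dfs T rem (nx (ent i) (xor l false)) false
            (Nat.add V (cost (per0 (ent i) (xor l false)) (per1 (ent i) (xor l false))))))
        (cond (pruneB T rem (ent (nx (ent i) (xor l true)))
          (Nat.add V (cost (per0 (ent i) (xor l true)) (per1 (ent i) (xor l true))))) true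
          (dfs T rem (nx (ent i) (xor l true)) true
            (Nat.add V (cost (per0 (ent i) (xor l true)) (per1 (ent i) (xor l true))))))
        false = true := h
  obtain ⟨h1, h2⟩ := cond_false_eq_true h'
  have key : ∀ x y : Bool, cond x true y = true → x = true ∨ y = true := by decide
  cases b
  · exact key _ _ h1
  · exact key _ _ h2

theorem dfs_spec (f : ℕ → Bool) (T : ℕ) : ∀ (rem m i : ℕ) (l : Bool) (V : ℕ), i < 1250 →
    Match f m (ent i) l → V ≤ cnt (Sq f) m → dfs T rem i l V = true →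
    T < cnt (Sq f) (m + rem) := by
  intro rem
  induction rem with
  | zero =>
    intro m i l V hi hM hV h
    have h' : Nat.ble (Nat.succ T) V = true := h
    have := Nat.le_of_ble_eq_true h'
    simp only [add_zero]; omega
  | succ rem ih =>
    intro m i l V hi hM hV h
    obtain ⟨i', c, hi'eq, hceq, hi', hM', hc, -, -, -⟩ :=
      checkOne_step f m (ent i) l (checkState_one i hi l _) hM
    have hV' : V + c ≤ cnt (Sq f) (m + 1) := by rw [cnt_succ]; omega
    have e : m + (rem + 1) = m + 1 + rem := by omega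
    rw [e]
    rcases dfs_succ T rem i l V h (f m) with h1 | h1
    · rw [← hi'eq, ← hceq] at h1
      exact pruneB_spec f T rem (m+1) i' (f m) (V + c) hi' hM' hV' h1
    · rw [← hi'eq, ← hceq] at h1
      exact ih (m+1) i' (f m) (V + c) hi' hM' hV' h1

theorem exc_of_dfs (T n : ℕ) (h0 : dfs T n 0 false 0 = true) (h1 : dfs T n 0 true 0 = true)
    (f : ℕ → Bool) : T < cnt (Sq f) (n + 1) := by
  rw [add_comm]
  apply dfs_spec f T n 1 0 (f 0) 0 (by norm_num) (match_one f) (Nat.zero_le _)
  cases f 0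
  · exact h0
  · exact h1

set_option maxRecDepth 100000

theorem exc4 (f : ℕ → Bool) : 0 < cnt (Sq f) 4 :=
  exc_of_dfs 0 3 (by decide +kernel) (by decide +kernel) f
theorem exc6 (f : ℕ → Bool) : 1 < cnt (Sq f) 6 :=
  exc_of_dfs 1 5 (by decide +kernel) (by decide +kernel) f
theorem exc10 (f : ℕ → Bool) : 3 < cnt (Sq f) 10 :=
  exc_of_dfs 3 9 (by decide +kernel) (by decide +kernel) f
theorem exc39 (f : ℕ → Bool) : 19 < cnt (Sq f) 39 :=
  exc_of_dfs 19 38 (by decide +kernel) (by decide +kernel) f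
theorem exc79 (f : ℕ → Bool) : 41 < cnt (Sq f) 79 :=
  exc_of_dfs 41 78 (by decide +kernel) (by decide +kernel) f
theorem exc128 (f : ℕ → Bool) : 68 < cnt (Sq f) 128 :=
  exc_of_dfs 68 127 (by decide +kernel) (by decide +kernel) f

end SquareHole
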