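import Pool.Agent.Helper30.Sq.Big

namespace SquareHole

/-- or of the shifts of `X` by `0, …, P-1`, by doubling -/
def orGo (P : ℕ) (fuel : ℕ) : ℕ → ℕ → ℕ :=
  Nat.rec (motive := fun _ => ℕ → ℕ → ℕ) (fun _ _ => 0)
    (fun _ ih Y w => cond (Nat.ble P (Nat.mul 2 w))
      (Nat.lor Y (Nat.shiftRight Y (Nat.sub P w)))
      (ih (Nat.lor Y (Nat.shiftRight Y w)) (Nat.mul 2 w))) fuel

def orRun (X P : ℕ) : ℕ := orGo P 12 X 1

theorem or_shift_prop (X Y w s : ℕ)
    (h : ∀ j, Y.testBit j = true → ∃ t, t < w ∧ X.testBit (j + t) = true) :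
    ∀ j, (Nat.lor Y (Nat.shiftRight Y s)).testBit j = true →
      ∃ t, t < w + s ∧ X.testBit (j + t) = true := by
  intro j hj
  have hj' : (Y ||| (Y >>> s)).testBit j = true := hj
  rw [Nat.testBit_or, Nat.testBit_shiftRight, Bool.or_eq_true] at hj'
  rcases hj' with h1 | h1
  · obtain ⟨t, ht, h2⟩ := h j h1
    exact ⟨t, by omega, h2⟩
  · obtain ⟨t, ht, h2⟩ := h (s + j) h1
    exact ⟨s + t, by omega, by rw [← h2]; congr 1; omega⟩

theorem orGo_spec (X P : ℕ) : ∀ (fuel Y w : ℕ), w ≤ P →
    (∀ j, Y.testBit j = true → ∃ t, t < w ∧ X.testBit (j + t) = true) →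
    ∀ j, (orGo P fuel Y w).testBit j = true → ∃ t, t < P ∧ X.testBit (j + t) = true := by
  intro fuel
  induction fuel with
  | zero => intro Y w hw h j hj; simp [orGo] at hj
  | succ k ih =>
    intro Y w hw h j hj
    have hj' : (cond (Nat.ble P (Nat.mul 2 w))
      (Nat.lor Y (Nat.shiftRight Y (Nat.sub P w)))
      (orGo P k (Nat.lor Y (Nat.shiftRight Y w)) (Nat.mul 2 w))).testBit j = true := hj
    cases hb : Nat.ble P (Nat.mul 2 w) with
    | true =>
      rw [hb] at hj'
      obtain ⟨t, ht, h2⟩ := or_shift_prop X Y w (P - w) h j hj'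
      exact ⟨t, by omega, h2⟩
    | false =>
      rw [hb] at hj'
      simp only [cond_false] at hj'
      have h2w : 2 * w ≤ P := by
        by_contra hc
        have : Nat.ble P (Nat.mul 2 w) = true := Nat.ble_eq_true_of_le (by show P ≤ 2 * w; omega)
        rw [this] at hb
        exact Bool.noConfusion hb
      apply ih (Nat.lor Y (Nat.shiftRight Y w)) (2 * w) h2w _ j hj'
      have := or_shift_prop X Y w w h
      intro j' hj''
      obtain ⟨t, ht, h2⟩ := this j' hj''
      exact ⟨t, by omega, h2⟩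

theorem orRun_spec (X P j : ℕ) (hP : 1 ≤ P) (h : (orRun X P).testBit j = true) :
    ∃ t, t < P ∧ X.testBit (j + t) = true := by
  apply orGo_spec X P 12 X 1 hP _ j h
  intro j hj
  exact ⟨0, by norm_num, by simpa using hj⟩

/-- mismatch code -/
def mism (c P : ℕ) : ℕ := Nat.xor c (Nat.shiftRight c P)

theorem mism_spec {c P j : ℕ} (h : (mism c P).testBit j = true) :
    bitB c j ≠ bitB c (j + P) := by
  have h' : (c ^^^ (c >>> P)).testBit j = true := h
  rw [Nat.testBit_xor, Nat.testBit_shiftRight] at h'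
  rw [bitB_eq, bitB_eq, add_comm j P]
  intro hc
  rw [hc] at h'
  simp at h'

/-- mismatch code ignoring position `0` -/
def mism' (c P : ℕ) : ℕ := Nat.mul 2 (Nat.div (mism c P) 2)

theorem mism'_spec {c P j : ℕ} (h : (mism' c P).testBit j = true) :
    j ≠ 0 ∧ bitB c j ≠ bitB c (j + P) := by
  have h' : (2 * (mism c P / 2)).testBit j = true := h
  rcases Nat.eq_zero_or_pos j with h0 | h0
  · subst h0
    simp [Nat.testBit_zero] at h'
  · obtain ⟨k, rfl⟩ : ∃ k, j = k + 1 := ⟨j - 1, by omega⟩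
    refine ⟨by omega, mism_spec ?_⟩
    rw [Nat.testBit_succ] at h' ⊢
    have e : 2 * (mism c P / 2) / 2 = mism c P / 2 := by omega
    rwa [e] at h'

theorem small_check : all12 (fun a b c d => allB 195 (fun k =>
    Nat.beq (Nat.mod (orRun (mism (win4 a b c d) (Nat.add 3 k)) (Nat.add 3 k)) (Nat.succ full187))
      full187)) = true := by decide +kernel

theorem prefix_check : allB 339 (fun k =>
    Nat.beq (Nat.mod (orRun (mism' (win4 true true false true) (Nat.add 2 k)) (Nat.add 2 k)) 2) 1)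
      = true := by decide +kernel

theorem testBit_of_mod_full (Y i : ℕ) (hi : i < 187) (h : Y % (full187 + 1) = full187) :
    Y.testBit i = true := by
  have e : full187 + 1 = 2 ^ 187 := by decide +kernel
  have e2 : full187 = 2 ^ 187 - 1 := by decide +kernel
  have h2 : (Y % 2 ^ 187).testBit i = true := by
    rw [← e, h, e2, Nat.testBit_two_pow_sub_one]
    simpa using hi
  rw [Nat.testBit_mod_two_pow] at h2
  simp only [Bool.and_eq_true] at h2
  exact h2.2

/-- no small squares in `W` -/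
theorem W_small (i P : ℕ) (h3 : 3 ≤ P) (hP : P < 198) : ¬ Sq W i P := by
  intro hsq
  obtain ⟨μ, i', hi', rfl⟩ : ∃ μ i', i' < 187 ∧ i = 187 * μ + i' :=
    ⟨i / 187, i % 187, by omega, by omega⟩
  have hc := allB_spec (all12_spec small_check μ) (P - 3) (by omega)
  have e : Nat.add 3 (P - 3) = P := by show 3 + (P - 3) = P; omega
  rw [e] at hc
  have h1 := Nat.eq_of_beq_eq_true hc
  have h2 := testBit_of_mod_full _ i' hi' h1
  obtain ⟨t, ht, h4⟩ := orRun_spec _ P i' (by omega) h2
  have h5 := mism_spec h4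
  have h6 := hsq t ht
  have e1 : 187 * μ + i' + t = 187 * μ + (i' + t) := by ring
  have e2 : 187 * μ + i' + P + t = 187 * μ + (i' + t + P) := by ring
  rw [e1, e2, W_win μ _ (by omega), W_win μ _ (by omega)] at h6
  apply h5
  revert h6
  generalize bitB _ (i' + t) = x
  generalize bitB _ (i' + t + P) = y
  generalize decide (μ % 2 = 1) = z
  revert x y z; decide

theorem v_values : v 0 = true ∧ v 1 = true ∧ v 2 = false ∧ v 3 = true := by
  refine ⟨v_zero, ?_, ?_, ?_⟩
  · simpa [v_zero] using v1 0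
  · simpa [v_zero] using v2 0
  · have := v0 1
    rw [show (3 * 1 : ℕ) = 3 from rfl] at this
    rw [this]
    simpa [v_zero] using v1 0

theorem W_prefix (t : ℕ) (ht : t < 748) : W t = bitB (win4 true true false true) t := by
  have h := W_win 0 t ht
  obtain ⟨h0, h1, h2, h3⟩ := v_values
  simp only [mul_zero, zero_add, h0, h1, h2, h3] at h
  rw [h]
  simp

theorem W_prefix_small (P : ℕ) (h2 : 2 ≤ P) (hP : P < 341) :
    ∃ t, 1 ≤ t ∧ t < P ∧ W t ≠ W (P + t) := by
  have hc := allB_spec prefix_check (P - 2) (by omega)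
  have e : Nat.add 2 (P - 2) = P := by show 2 + (P - 2) = P; omega
  rw [e] at hc
  have h1 := Nat.eq_of_beq_eq_true hc
  have h3 : (orRun (mism' (win4 true true false true) P) P).testBit 0 = true := by
    rw [Nat.testBit_zero]
    exact decide_eq_true h1
  obtain ⟨t, ht, h4⟩ := orRun_spec _ P 0 (by omega) h3
  rw [zero_add] at h4
  obtain ⟨h5, h6⟩ := mism'_spec h4
  refine ⟨t, by omega, ht, ?_⟩
  rw [W_prefix t (by omega), W_prefix (P + t) (by omega), add_comm P t]
  exact h6

end SquareHole
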