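import Pool.Agent.Helper30.Sq.Tail

namespace SquareHole

/-- start of the tail for a word of length `n` -/
def tA (n : ℕ) : ℕ := Nat.sub n (tK n)

/-- the code of the window: structured part `w` followed by the tail -/
def wcode (w n : ℕ) : ℕ := Nat.add (Nat.mod w (Nat.pow 2 (tA n))) (Nat.shiftLeft (tR n) (tA n))

/-- no square of period `P` starting in `[a+1-2P, n-2P]` -/
def chkP (c a n P : ℕ) : Bool :=
  cond (Nat.ble (Nat.mul 2 P) n)
    (cond (cond (Nat.ble (Nat.succ (Nat.sub n (Nat.mul 2 P))) (Nat.add (Nat.sub (Nat.succ a) (Nat.mul 2 P)) P))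
        (!(Nat.beq (Nat.mod (Nat.shiftRight (mism' c P) (Nat.sub n (Nat.mul 2 P)))
          (Nat.pow 2 (Nat.sub (Nat.add (Nat.sub (Nat.succ a) (Nat.mul 2 P)) P) (Nat.sub n (Nat.mul 2 P))))) 0))
        false) true
      (allB (Nat.sub (Nat.succ (Nat.sub n (Nat.mul 2 P))) (Nat.sub (Nat.succ a) (Nat.mul 2 P)))
        (fun u => !(Nat.beq (Nat.mod (Nat.shiftRight (mism' c P)
          (Nat.add (Nat.sub (Nat.succ a) (Nat.mul 2 P)) u)) (Nat.pow 2 P)) 0))))
    true

theorem exists_bit_of_mod (x n : ℕ) (h : x % 2 ^ n ≠ 0) : ∃ u, u < n ∧ x.testBit u = true := by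
  by_contra hc
  push Not at hc
  apply h
  apply Nat.eq_of_testBit_eq
  intro j
  rw [Nat.testBit_mod_two_pow, Nat.zero_testBit]
  by_cases hj : j < n
  · have := hc j hj
    simp only [Bool.not_eq_true] at this
    simp [this]
  · simp [hj]

theorem chkP_spec {c a n P : ℕ} (h : chkP c a n P = true) (i : ℕ) (h1 : a < i + 2 * P)
    (h2 : i + 2 * P ≤ n) : ∃ t, t < P ∧ (mism' c P).testBit (i + t) = true := by
  unfold chkP at h
  have hb : Nat.ble (Nat.mul 2 P) n = true := Nat.ble_eq_true_of_le (by show 2 * P ≤ n; omega)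
  rw [hb] at h
  simp only [cond_true] at h
  cases hc : (cond (Nat.ble (Nat.succ (Nat.sub n (Nat.mul 2 P))) (Nat.add (Nat.sub (Nat.succ a) (Nat.mul 2 P)) P))
        (!(Nat.beq (Nat.mod (Nat.shiftRight (mism' c P) (Nat.sub n (Nat.mul 2 P)))
          (Nat.pow 2 (Nat.sub (Nat.add (Nat.sub (Nat.succ a) (Nat.mul 2 P)) P) (Nat.sub n (Nat.mul 2 P))))) 0))
        false) with
  | true =>
    obtain ⟨h3, h4⟩ := cond_false_eq_true hc
    have h3' : (n - 2 * P) + 1 ≤ (a + 1 - 2 * P) + P := Nat.le_of_ble_eq_true h3
    have h4' : ¬ ((mism' c P) >>> (n - 2 * P)) % 2 ^ ((a + 1 - 2 * P) + P - (n - 2 * P)) = 0 := by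
      intro hz
      have : Nat.beq (Nat.mod (Nat.shiftRight (mism' c P) (Nat.sub n (Nat.mul 2 P)))
          (Nat.pow 2 (Nat.sub (Nat.add (Nat.sub (Nat.succ a) (Nat.mul 2 P)) P) (Nat.sub n (Nat.mul 2 P))))) 0 = true := by
        rw [Nat.beq_eq]; exact hz
      rw [this] at h4
      exact Bool.noConfusion h4
    obtain ⟨u, hu, h5⟩ := exists_bit_of_mod _ _ h4'
    rw [Nat.testBit_shiftRight] at h5
    refine ⟨n - 2 * P + u - i, by omega, ?_⟩
    rw [← h5]
    congr 1
    omega
  | false =>
    rw [hc] at h
    simp only [cond_false] at h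
    have h3 := allB_spec h (i - (a + 1 - 2 * P)) (by
      show i - (a + 1 - 2 * P) < (n - 2 * P + 1) - (a + 1 - 2 * P)
      omega)
    have e : (a + 1 - 2 * P) + (i - (a + 1 - 2 * P)) = i := by omega
    have h4' : ¬ ((mism' c P) >>> i) % 2 ^ P = 0 := by
      intro hz
      have : Nat.beq (Nat.mod (Nat.shiftRight (mism' c P)
          (Nat.add (Nat.sub (Nat.succ a) (Nat.mul 2 P)) (i - (a + 1 - 2 * P)))) (Nat.pow 2 P)) 0 = true := by
        rw [Nat.beq_eq]
        show ((mism' c P) >>> ((a + 1 - 2 * P) + (i - (a + 1 - 2 * P)))) % 2 ^ P = 0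
        rw [e]; exact hz
      rw [this] at h3
      exact Bool.noConfusion h3
    obtain ⟨u, hu, h5⟩ := exists_bit_of_mod _ _ h4'
    rw [Nat.testBit_shiftRight] at h5
    exact ⟨u, hu, h5⟩

/-- No squares with small period touching the tail. -/
theorem no_tail (f : ℕ → Bool) (β c a K : ℕ) (p : Bool)
    (hwin : ∀ t, t < a + K → f (β + t) = xor (bitB c t) p)
    (hβ : β = 0 ∨ 2 * (198 + K) ≤ a + 2)
    (hOK : ∀ P, 3 ≤ P → P < 198 + K → chkP c a (a + K) P = true)
    (i P : ℕ) (h3 : 3 ≤ P) (hP : P < 198 + K) (h1 : β + a < i + 2 * P)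
    (h2 : i + 2 * P ≤ β + a + K) : ¬ PSq f 0 i P := by
  intro hsq
  have hi : β ≤ i := by omega
  obtain ⟨i', rfl⟩ : ∃ i', i = β + i' := ⟨i - β, by omega⟩
  obtain ⟨t, ht, h4⟩ := chkP_spec (hOK P h3 hP) i' (by omega) (by omega)
  obtain ⟨h5, h6⟩ := mism'_spec h4
  have h7 := hsq t ht (by omega) (by omega)
  have e1 : β + i' + t = β + (i' + t) := by ring
  have e2 : β + i' + P + t = β + (i' + t + P) := by ring
  rw [e1, e2, hwin _ (by omega), hwin _ (by omega)] at h7
  apply h6
  revert h7
  generalize bitB c (i' + t) = x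
  generalize bitB c (i' + t + P) = y
  clear hwin
  revert x y p; decide

/-- the word -/
def wd (μ n : ℕ) (x : ℕ) : Bool :=
  if x < 187 * μ + tA n then W x else xor (bitB (tR n) (x - (187 * μ + tA n))) (decide (μ % 2 = 1))

/-- number of short squares ending in the tail -/
def tailSum (c n : ℕ) : ℕ :=
  Nat.rec 0 (fun u ih => Nat.add ih (dN c (Nat.add (Nat.sub (tA n) 4) u))) (tK n)

theorem tailSum_eq (c n : ℕ) :
    tailSum c n = ∑ u ∈ Finset.range (tK n), dN c ((tA n - 4) + u) := by
  unfold tailSum
  generalize tK n = k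
  induction k with
  | zero => rfl
  | succ k ih => rw [Finset.sum_range_succ, ← ih]; rfl

def chkTail (c w n : ℕ) : Bool :=
  cond (Nat.beq (tK n) 0) true
    (cond (Nat.beq (Nat.mod (tA n) 187) 70) false
      (cond (bitB (tR n) 0 == bitB w (cond (Nat.ble 748 (tA n)) (Nat.sub (tA n) 374) (tA n))) false
        (allB (Nat.add 195 (tK n)) (fun k => chkP c (tA n) n (Nat.add 3 k)))))

def chkCount (c n s : ℕ) (a b c' d : Bool) : Bool :=
  Nat.ble (Nat.add (Nat.add (Nat.mul 103 (Nat.div (Nat.sub (tA n) 4) 187))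
    (cum (sel4 a b c' d (Nat.div (Nat.sub (tA n) 4) 187)) (Nat.mod (Nat.sub (tA n) 4) 187)))
    (Nat.succ (tailSum c n))) s

def chk (n s : ℕ) (a b c d : Bool) : Bool :=
  cond (chkTail (wcode (win4 a b c d) n) (win4 a b c d) n)
    (chkCount (wcode (win4 a b c d) n) n s a b c d) false

theorem wcode_bit_lt (w n t : ℕ) (ht : t < tA n) : bitB (wcode w n) t = bitB w t := by
  rw [bitB_eq, bitB_eq]
  have e : wcode w n = 2 ^ (tA n) * tR n + w % 2 ^ (tA n) := by
    show w % 2 ^ (tA n) + (tR n) <<< (tA n) = _
    rw [Nat.shiftLeft_eq]; ring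
  rw [e, Nat.testBit_two_pow_mul_add _ (Nat.mod_lt _ (by positivity))]
  rw [if_pos ht, Nat.testBit_mod_two_pow]
  simp [ht]

theorem wcode_bit_ge (w n t : ℕ) (ht : tA n ≤ t) :
    bitB (wcode w n) t = bitB (tR n) (t - tA n) := by
  rw [bitB_eq, bitB_eq]
  have e : wcode w n = 2 ^ (tA n) * tR n + w % 2 ^ (tA n) := by
    show w % 2 ^ (tA n) + (tR n) <<< (tA n) = _
    rw [Nat.shiftLeft_eq]; ring
  rw [e, Nat.testBit_two_pow_mul_add _ (Nat.mod_lt _ (by positivity))]
  rw [if_neg (by omega)]

theorem wd_win (μ n t : ℕ) (hA : tA n ≤ 748) :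
    wd μ n (187 * μ + t) =
      xor (bitB (wcode (win4 (v μ) (v (μ + 1)) (v (μ + 2)) (v (μ + 3))) n) t)
        (decide (μ % 2 = 1)) := by
  unfold wd
  by_cases ht : t < tA n
  · rw [if_pos (by omega), W_win μ t (by omega), wcode_bit_lt _ _ _ ht]
  · rw [if_neg (by omega), wcode_bit_ge _ _ _ (by omega)]
    congr 2
    omega

theorem W_one : W 1 = true := by
  rw [W_prefix 1 (by norm_num)]; decide +kernel
theorem W_two : W 2 = false := by
  rw [W_prefix 2 (by norm_num)]; decide +kernel
theorem W_three : W 3 = false := by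
  rw [W_prefix 3 (by norm_num)]; decide +kernel

/-- soundness of the check -/
theorem good_of_chk (μ n s : ℕ) (hA4 : 4 ≤ tA n) (hA : tA n ≤ 748) (hK : tK n ≤ n)
    (hμ : μ = 0 ∨ 2 * (198 + tK n) ≤ tA n + 2)
    (h : chk n s (v μ) (v (μ + 1)) (v (μ + 2)) (v (μ + 3)) = true) :
    cnt (PSq (wd μ n) 0) (187 * μ + n) ≤ 103 * μ + s + 1 := by
  set w := win4 (v μ) (v (μ + 1)) (v (μ + 2)) (v (μ + 3)) with hw
  set c := wcode w n with hc
  obtain ⟨h1, h2⟩ := cond_false_eq_true h
  rw [← hw, ← hc] at h1 h2
  have hn : n = tA n + tK n := by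
    have : tA n = n - tK n := rfl
    omega
  have hf : ∀ x, x < 187 * μ + tA n → wd μ n x = W x := by
    intro x hx
    unfold wd
    rw [if_pos hx]
  -- facts from the tail check
  have htail : tK n = 0 ∨ ((wd μ n (187 * μ + tA n) ≠ W (187 * μ + tA n) ∧
      (187 * μ + tA n) % 187 ≠ 70) ∧
      ∀ P, 3 ≤ P → P < 198 + tK n → chkP c (tA n) (tA n + tK n) P = true) := by
    unfold chkTail at h1
    cases hb : Nat.beq (tK n) 0 with
    | true => left; exact Nat.eq_of_beq_eq_true hb
    | false =>
      right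
      rw [hb] at h1
      simp only [cond_false] at h1
      cases hb2 : Nat.beq (Nat.mod (tA n) 187) 70 with
      | true => rw [hb2] at h1; simp at h1
      | false =>
        rw [hb2] at h1
        simp only [cond_false] at h1
        have h70 : tA n % 187 ≠ 70 := Nat.ne_of_beq_eq_false hb2
        cases hb3 : (bitB (tR n) 0 == bitB w (cond (Nat.ble 748 (tA n)) (Nat.sub (tA n) 374) (tA n))) with
        | true => rw [hb3] at h1; simp at h1
        | false =>
          rw [hb3] at h1
          simp only [cond_false] at h1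
          refine ⟨⟨?_, by omega⟩, ?_⟩
          · have hne : bitB (tR n) 0 ≠ bitB w (cond (Nat.ble 748 (tA n)) (Nat.sub (tA n) 374) (tA n)) := by
              simpa using hb3
            have hWa : W (187 * μ + tA n) = xor (bitB w (cond (Nat.ble 748 (tA n))
                (Nat.sub (tA n) 374) (tA n))) (decide (μ % 2 = 1)) := by
              cases hb4 : Nat.ble 748 (tA n) with
              | true =>
                have h5 := Nat.le_of_ble_eq_true hb4
                simp only [cond_true]
                have h6 : Nat.sub (tA n) 374 = tA n - 374 := rfl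
                rw [h6, hw, ← W_win μ (tA n - 374) (by omega)]
                have h7 := W_period (187 * μ + (tA n - 374)) 1 (by omega)
                rw [← h7]
                have h9 : 187 * μ + (tA n - 374) + 374 * 1 = 187 * μ + tA n := by omega
                rw [h9]
              | false =>
                simp only [cond_false]
                have h5 : tA n < 748 := by
                  by_contra hcc
                  rw [Nat.ble_eq_true_of_le (by omega)] at hb4
                  exact Bool.noConfusion hb4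
                rw [hw, ← W_win μ (tA n) h5]
            rw [hWa]
            unfold wd
            rw [if_neg (by omega), Nat.sub_self]
            intro hcc
            apply hne
            revert hcc
            generalize bitB (tR n) 0 = x
            generalize bitB w _ = y
            generalize decide (μ % 2 = 1) = z
            revert x y z; decide
          · intro P hP3 hP
            have h8 := allB_spec h1 (P - 3) (by show P - 3 < 195 + tK n; omega)
            have e : Nat.add 3 (P - 3) = P := by show 3 + (P - 3) = P; omega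
            simp only [e] at h8
            rw [← hn]; exact h8
  -- no long squares
  have hno : ∀ i P, 3 ≤ P → i + 2 * P ≤ 187 * μ + n → ¬ PSq (wd μ n) 0 i P := by
    intro i P hP3 hiP
    rcases Nat.lt_or_ge P (198 + tK n) with hP | hP
    · rcases Nat.lt_or_ge (187 * μ + tA n) (i + 2 * P) with hcase | hcase
      · rcases htail with ht | ⟨_, ht⟩
        · omega
        · apply no_tail (wd μ n) (187 * μ) c (tA n) (tK n) (decide (μ % 2 = 1)) _ _ ht i P hP3 hP
            hcase (by omega)
          · intro t _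
            exact wd_win μ n t hA
          · rcases hμ with rfl | hμ
            · left; rfl
            · right; exact hμ
      · -- inside the structured part
        rcases Nat.lt_or_ge P 198 with hP' | hP'
        · intro hsq
          rcases Nat.eq_zero_or_pos i with hi | hi
          · subst hi
            obtain ⟨t, ht1, ht2, ht3⟩ := W_prefix_small P (by omega) (by omega)
            have := hsq t ht2 (by omega) (by omega)
            rw [zero_add, zero_add, hf _ (by omega), hf _ (by omega)] at this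
            exact ht3 this
          · apply W_small i P hP3 hP'
            intro t ht
            have := hsq t ht (by omega) (by omega)
            rwa [hf _ (by omega), hf _ (by omega)] at this
        · exact no_big (wd μ n) (187 * μ + tA n) 0 hf (Or.inl rfl) i P (by omega) (by omega)
    · apply no_big (wd μ n) (187 * μ + tA n) (tK n) hf _ i P hP (by omega)
      rcases htail with ht | ⟨ht, _⟩
      · left; exact ht
      · right; exact ht
  -- counting
  have h12 : wd μ n 1 ≠ wd μ n 2 := by
    rw [hf 1 (by omega), hf 2 (by omega), W_one, W_two]; decide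
  have h02 : ¬ PSq (wd μ n) 0 0 2 := by
    intro hsq
    have := hsq 1 (by norm_num) (by norm_num) (by norm_num)
    norm_num at this
    rw [hf 1 (by omega), hf 3 (by omega), W_one, W_three] at this
    exact Bool.noConfusion this
  have e0 : 187 * μ + n = (187 * μ + n - 4) + 4 := by omega
  have hcb := cnt_bound (wd μ n) h12 h02 (187 * μ + n - 4) (by rw [← e0]; exact hno)
  rw [← e0] at hcb
  refine le_trans hcb ?_
  have e1 : 187 * μ + n - 4 = (187 * μ + (tA n - 4)) + tK n := by omega
  rw [e1, Finset.sum_range_add]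
  have hs1 : ∑ i ∈ Finset.range (187 * μ + (tA n - 4)), dF (wd μ n) i =
      103 * (μ + (tA n - 4) / 187) + cum (v (μ + (tA n - 4) / 187)) ((tA n - 4) % 187) := by
    rw [← sumW (μ + (tA n - 4) / 187) ((tA n - 4) % 187) (by omega)]
    have e2 : 187 * (μ + (tA n - 4) / 187) + (tA n - 4) % 187 = 187 * μ + (tA n - 4) := by omega
    rw [e2]
    apply Finset.sum_congr rfl
    intro i hi
    rw [Finset.mem_range] at hi
    unfold dF
    rw [hf (i+1) (by omega), hf (i+2) (by omega), hf (i+3) (by omega), hf (i+4) (by omega)]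
  have hs2 : ∑ u ∈ Finset.range (tK n), dF (wd μ n) (187 * μ + (tA n - 4) + u) =
      tailSum c n := by
    rw [tailSum_eq]
    apply Finset.sum_congr rfl
    intro u hu
    rw [Finset.mem_range] at hu
    have e3 : 187 * μ + (tA n - 4) + u = 187 * μ + ((tA n - 4) + u) := by ring
    rw [e3]
    exact dF_win (wd μ n) c (187 * μ) _ (decide (μ % 2 = 1)) (fun t _ _ => wd_win μ n t hA)
  rw [hs1, hs2]
  have hsel : v (μ + (tA n - 4) / 187) =
      sel4 (v μ) (v (μ + 1)) (v (μ + 2)) (v (μ + 3)) ((tA n - 4) / 187) := by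
    have : (tA n - 4) / 187 < 4 := by omega
    generalize (tA n - 4) / 187 = k at *
    interval_cases k <;> rfl
  rw [hsel]
  have h2' : 103 * ((tA n - 4) / 187) +
      cum (sel4 (v μ) (v (μ + 1)) (v (μ + 2)) (v (μ + 3)) ((tA n - 4) / 187)) ((tA n - 4) % 187) +
      (tailSum c n + 1) ≤ s := Nat.le_of_ble_eq_true h2
  omega

end SquareHole
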