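import Pool.Agent.Helper30.Sq.EvenFree
import Pool.Agent.Helper30.Sq.Basic
import Pool.Agent.Helper30.Sq.Lower

namespace SquareHole

/-- the two blocks (least significant bit first); they differ only at offset `70` -/
def B0 : ℕ := 0x2ca68cb1a62ca68cb9a72ce9acb9a32c698b29a32c698b3
def B1 : ℕ := 0x2ca68cb1a62ca68cb9a72ce9acb9a72c698b29a32c698b3

def blk (b : Bool) : ℕ := cond b B1 B0

/-- letter `t` of a code -/
def bitB (c t : ℕ) : Bool := Nat.beq (Nat.mod (Nat.shiftRight c t) 2) 1

theorem bitB_eq (c t : ℕ) : bitB c t = c.testBit t := by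
  rw [Nat.testBit_eq_decide_div_mod_eq]
  unfold bitB
  have h : Nat.mod (Nat.shiftRight c t) 2 = c / 2 ^ t % 2 := by
    show c >>> t % 2 = _
    rw [Nat.shiftRight_eq_div_pow]
  rw [h]
  cases hb : Nat.beq (c / 2 ^ t % 2) 1 with
  | true => symm; rw [decide_eq_true_iff]; exact Nat.eq_of_beq_eq_true hb
  | false => symm; rw [decide_eq_false_iff_not]; exact Nat.ne_of_beq_eq_false hb

/-- the infinite word -/
def W (x : ℕ) : Bool := xor (bitB (blk (v (x / 187))) (x % 187)) (decide (x / 187 % 2 = 1))

def full187 : ℕ := 0x7ffffffffffffffffffffffffffffffffffffffffffffff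

/-- code of four consecutive blocks, complemented alternately -/
def win4 (a b c d : Bool) : ℕ :=
  Nat.add (blk a) (Nat.add (Nat.shiftLeft (Nat.sub full187 (blk b)) 187)
    (Nat.add (Nat.shiftLeft (blk c) 374) (Nat.shiftLeft (Nat.sub full187 (blk d)) 561)))

def sel4 (a b c d : Bool) (k : ℕ) : Bool :=
  cond (Nat.beq k 0) a (cond (Nat.beq k 1) b (cond (Nat.beq k 2) c d))

def all16 (P : Bool → Bool → Bool → Bool → Bool) : Bool :=
  let g := fun a b => P a b false false && P a b false true && P a b true false && P a b true true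
  g false false && g false true && g true false && g true true

theorem all16_spec {P : Bool → Bool → Bool → Bool → Bool} (h : all16 P = true)
    (a b c d : Bool) : P a b c d = true := by
  unfold all16 at h
  simp only [Bool.and_eq_true] at h
  cases a <;> cases b <;> cases c <;> cases d <;> simp [h]

theorem win4_check : all16 (fun a b c d => allB 748 (fun t =>
    Bool.xor (bitB (win4 a b c d) t)
      (Bool.xor (bitB (blk (sel4 a b c d (Nat.div t 187))) (Nat.mod t 187))
        (Nat.beq (Nat.mod (Nat.div t 187) 2) 0)))) = true := by decide +kernel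

theorem win4_bit (a b c d : Bool) (t : ℕ) (ht : t < 748) :
    bitB (win4 a b c d) t = xor (bitB (blk (sel4 a b c d (t / 187))) (t % 187))
      (decide (t / 187 % 2 = 1)) := by
  have h := allB_spec (all16_spec win4_check a b c d) t ht
  have h' : Bool.xor (bitB (win4 a b c d) t)
      (Bool.xor (bitB (blk (sel4 a b c d (t / 187))) (t % 187))
        (Nat.beq (t / 187 % 2) 0)) = true := h
  have h2 : Nat.beq (t / 187 % 2) 0 = !(decide (t / 187 % 2 = 1)) := by
    rcases Nat.mod_two_eq_zero_or_one (t / 187) with h | h <;> rw [h] <;> rfl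
  rw [h2] at h'
  revert h'
  generalize bitB (win4 a b c d) t = x
  generalize bitB (blk (sel4 a b c d (t / 187))) (t % 187) = y
  generalize decide (t / 187 % 2 = 1) = z
  revert x y z; decide

theorem W_win (μ t : ℕ) (ht : t < 748) :
    W (187 * μ + t) = xor (bitB (win4 (v μ) (v (μ + 1)) (v (μ + 2)) (v (μ + 3))) t)
      (decide (μ % 2 = 1)) := by
  rw [win4_bit _ _ _ _ t ht]
  unfold W
  have h1 : (187 * μ + t) / 187 = μ + t / 187 := by omega
  have h2 : (187 * μ + t) % 187 = t % 187 := by omega
  rw [h1, h2]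
  have h3 : sel4 (v μ) (v (μ + 1)) (v (μ + 2)) (v (μ + 3)) (t / 187) = v (μ + t / 187) := by
    have : t / 187 < 4 := by omega
    generalize t / 187 = k at *
    interval_cases k <;> rfl
  rw [h3]
  have h4 : (decide ((μ + t / 187) % 2 = 1)) =
      xor (decide (t / 187 % 2 = 1)) (decide (μ % 2 = 1)) := by
    rcases Nat.mod_two_eq_zero_or_one μ with h | h <;>
      rcases Nat.mod_two_eq_zero_or_one (t / 187) with h' | h' <;>
        simp [Nat.add_mod, h, h']
  rw [h4, Bool.xor_assoc]

/-- consecutive letters of `v` avoid the patterns with `a = c`, `b = d` -/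
theorem v_four (μ : ℕ) : (v μ == v (μ + 2) && v (μ + 1) == v (μ + 3)) = false := by
  have h := v_even_sqfree 1 (by norm_num) μ
  by_contra hc
  rw [Bool.not_eq_false, Bool.and_eq_true, beq_iff_eq, beq_iff_eq] at hc
  apply h
  intro t ht
  have : t = 0 ∨ t = 1 := by omega
  rcases this with rfl | rfl
  · simpa using hc.1
  · simpa [add_comm, add_left_comm, add_assoc] using hc.2

/-- check over all admissible quadruples -/
def all12 (P : Bool → Bool → Bool → Bool → Bool) : Bool :=
  all16 (fun a b c d => cond (a == c && b == d) true (P a b c d))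

theorem all12_spec {P : Bool → Bool → Bool → Bool → Bool} (h : all12 P = true) (μ : ℕ) :
    P (v μ) (v (μ + 1)) (v (μ + 2)) (v (μ + 3)) = true := by
  have h1 := all16_spec h (v μ) (v (μ + 1)) (v (μ + 2)) (v (μ + 3))
  simp only [v_four μ, cond_false] at h1
  exact h1

/-! ### the marker -/

def marker : ℕ := 179

theorem marker_check : all12 (fun a b c d => allB 187 (fun ρ =>
    cond (Nat.beq (Nat.mod (Nat.shiftRight (win4 a b c d) ρ) 2048) (Nat.sub 2047 marker)) false
      (cond (Nat.beq ρ 0) true
        (!(Nat.beq (Nat.mod (Nat.shiftRight (win4 a b c d) ρ) 2048) marker))))) = true := by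
  decide +kernel

theorem marker_start : all12 (fun a b c d =>
    Nat.beq (Nat.mod (win4 a b c d) 2048) marker) = true := by decide +kernel

theorem mod_eq_of_bits (x y n : ℕ) (hy : y < 2 ^ n)
    (h : ∀ s, s < n → bitB x s = bitB y s) : x % 2 ^ n = y := by
  apply Nat.eq_of_testBit_eq
  intro j
  rw [Nat.testBit_mod_two_pow]
  by_cases hj : j < n
  · have := h j hj
    rw [bitB_eq, bitB_eq] at this
    simp [hj, this]
  · have : y.testBit j = false := by
      apply Nat.testBit_lt_two_pow
      exact lt_of_lt_of_le hy (Nat.pow_le_pow_right (by norm_num) (by omega))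
    simp [hj, this]

theorem bitB_shift (c ρ s : ℕ) : bitB (c >>> ρ) s = bitB c (ρ + s) := by
  rw [bitB_eq, bitB_eq, Nat.testBit_shiftRight]

theorem bitB_compl (s : ℕ) (hs : s < 11) : bitB (2047 - marker) s = !(bitB marker s) := by
  interval_cases s <;> decide

theorem win4_marker (p s : ℕ) (hs : s < 11) :
    bitB (win4 (v p) (v (p + 1)) (v (p + 2)) (v (p + 3))) s = bitB marker s := by
  have h0 := all12_spec marker_start p
  have h := Nat.eq_of_beq_eq_true h0
  have h' : win4 (v p) (v (p + 1)) (v (p + 2)) (v (p + 3)) % 2 ^ 11 = marker := h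
  rw [← h', bitB_eq, bitB_eq, Nat.testBit_mod_two_pow]
  simp [hs]

theorem W_marker (p s : ℕ) (hs : s < 11) :
    W (187 * p + s) = xor (bitB marker s) (decide (p % 2 = 1)) := by
  rw [W_win p s (by omega), win4_marker p s hs]

theorem sync (p y : ℕ) (h : ∀ s, s < 11 → W (187 * p + s) = W (y + s)) :
    ∃ q, y = 187 * q ∧ q % 2 = p % 2 := by
  obtain ⟨q, ρ, hρ, rfl⟩ : ∃ q ρ, ρ < 187 ∧ y = 187 * q + ρ := ⟨y / 187, y % 187, by omega, by omega⟩
  set c := win4 (v q) (v (q + 1)) (v (q + 2)) (v (q + 3)) with hc
  have h1 : ∀ s, s < 11 → bitB (c >>> ρ) s =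
      xor (bitB marker s) (xor (decide (p % 2 = 1)) (decide (q % 2 = 1))) := by
    intro s hs
    have h2 := h s hs
    rw [W_marker p s hs, add_assoc, W_win q (ρ + s) (by omega), ← hc] at h2
    rw [bitB_shift]
    revert h2
    generalize bitB marker s = a
    generalize bitB c (ρ + s) = b
    generalize decide (p % 2 = 1) = x
    generalize decide (q % 2 = 1) = y
    revert a b x y; decide
  have hk := allB_spec (all12_spec marker_check q) ρ hρ
  rw [← hc] at hk
  by_cases hpq : q % 2 = p % 2
  · have h3 : (c >>> ρ) % 2 ^ 11 = marker := by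
      apply mod_eq_of_bits _ _ _ (by decide)
      intro s hs
      rw [h1 s hs, hpq]
      simp
    have h3' : Nat.mod (Nat.shiftRight c ρ) 2048 = marker := h3
    rw [h3'] at hk
    have h4 : Nat.beq marker (Nat.sub 2047 marker) = false := by decide
    rw [h4] at hk
    simp only [Nat.beq_refl, Bool.not_true, cond_false] at hk
    have h5 : Nat.beq ρ 0 = true := by
      cases hb : Nat.beq ρ 0 with
      | true => rfl
      | false => rw [hb] at hk; simp at hk
    have h6 := Nat.eq_of_beq_eq_true h5
    exact ⟨q, by omega, hpq⟩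
  · exfalso
    have hx : xor (decide (p % 2 = 1)) (decide (q % 2 = 1)) = true := by
      rcases Nat.mod_two_eq_zero_or_one p with h | h <;>
      rcases Nat.mod_two_eq_zero_or_one q with h' | h' <;> simp_all
    have h3 : (c >>> ρ) % 2 ^ 11 = 2047 - marker := by
      apply mod_eq_of_bits _ _ _ (by decide)
      intro s hs
      rw [h1 s hs, hx, bitB_compl s hs]
      simp
    have h3' : Nat.mod (Nat.shiftRight c ρ) 2048 = Nat.sub 2047 marker := h3
    rw [h3'] at hk
    simp at hk

end SquareHole
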